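import Mathlib

/-!
# Counting exponents of small weight
-/

set_option autoImplicit false

namespace W156h39

open Finset

/-- Sum over a box, first coordinate separated. -/
lemma Mom_sum_succ (M : ℕ) (r : Fin (M + 1) → ℕ) (f : (Fin (M + 1) → ℕ) → ℝ) :
    ∑ i ∈ Fintype.piFinset fun h => range (r h + 1), f i =
      ∑ x ∈ range (r 0 + 1), ∑ i ∈ Fintype.piFinset fun h : Fin M => range (r h.succ + 1),
        f (Fin.cons x i) := by
  rw [← Finset.sum_product']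
  symm
  refine Finset.sum_nbij' (fun p : ℕ × (Fin M → ℕ) => (Fin.cons p.1 p.2 : Fin (M + 1) → ℕ))
    (fun i => (i 0, Fin.tail i)) ?_ ?_ ?_ ?_ ?_
  · rintro ⟨x, i⟩ hp
    rw [Finset.mem_product, Fintype.mem_piFinset] at hp
    rw [Fintype.mem_piFinset]
    intro h
    refine Fin.cases ?_ (fun h => ?_) h
    · simpa using hp.1
    · simpa using hp.2 h
  · intro i hi
    rw [Fintype.mem_piFinset] at hi
    rw [Finset.mem_product, Fintype.mem_piFinset]
    exact ⟨hi 0, fun h => hi h.succ⟩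
  · rintro ⟨x, i⟩ _
    simp
  · intro i _
    simp
  · rintro ⟨x, i⟩ _
    rfl

/-- The first coordinate. -/
lemma Mom_one (m : ℕ) (hm : 1 ≤ m) (c : ℝ) :
    ∑ x ∈ range (m + 1), (c + ((x : ℝ) / m - 1 / 2)) ^ 2 ≤ (c ^ 2 + 1 / 4) * ((m : ℝ) + 1) := by
  have hm0 : (0 : ℝ) < m := by exact_mod_cast hm
  have h1 : ∑ x ∈ range (m + 1), ((x : ℝ) / m - 1 / 2) = 0 := by
    rw [Finset.sum_sub_distrib, ← Finset.sum_div, Finset.sum_const, Finset.card_range, nsmul_eq_mul]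
    have h2 : (∑ x ∈ range (m + 1), (x : ℝ)) * 2 = ((m : ℝ) + 1) * m := by
      have h3 := Finset.sum_range_id_mul_two (m + 1)
      have h4 : (((∑ x ∈ range (m + 1), x) * 2 : ℕ) : ℝ) = (((m + 1) * (m + 1 - 1) : ℕ) : ℝ) := by
        rw [h3]
      push_cast at h4
      simpa using h4
    have h5 : (∑ x ∈ range (m + 1), (x : ℝ)) = ((m : ℝ) + 1) * m / 2 := by linarith
    rw [h5]
    push_cast
    field_simp
    ring
  have h2 : ∀ x ∈ range (m + 1), (c + ((x : ℝ) / m - 1 / 2)) ^ 2 ≤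
      (c ^ 2 + 1 / 4) + 2 * c * ((x : ℝ) / m - 1 / 2) := by
    intro x hx
    have hx1 : (x : ℝ) ≤ m := by
      have := Finset.mem_range.1 hx
      exact_mod_cast (by omega : x ≤ m)
    have h3 : 0 ≤ (x : ℝ) / m := by positivity
    have h4 : (x : ℝ) / m ≤ 1 := (div_le_one hm0).2 hx1
    nlinarith
  refine (Finset.sum_le_sum h2).trans (le_of_eq ?_)
  rw [Finset.sum_add_distrib, ← Finset.mul_sum, h1, Finset.sum_const, Finset.card_range,
    nsmul_eq_mul]
  push_cast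
  ring

/-- Second moment. Induction on `M` (`Fin.consEquiv`/`Fin.consPiProd`, `Fin.sum_univ_succ`): for the first
coordinate `∑_{i ≤ r} (i/r - 1/2) = 0` and (i/r - 1/2)^2 ≤ 1/4. -/
theorem second_moment (M : ℕ) (r : Fin M → ℕ) (hr : ∀ h, 1 ≤ r h) (c : ℝ) :
    ∑ i ∈ Fintype.piFinset fun h => range (r h + 1), (c + ∑ h, ((i h : ℝ) / r h - 1 / 2)) ^ 2 ≤
      (c ^ 2 + M / 4) * ∏ h, ((r h : ℝ) + 1) := by
  induction M generalizing c with
  | zero =>
    rw [Fintype.piFinset_of_isEmpty]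
    simp
  | succ M ih =>
    rw [Mom_sum_succ, Fin.prod_univ_succ]
    set N : ℝ := ∏ h : Fin M, ((r h.succ : ℝ) + 1) with hN
    have hN0 : 0 ≤ N := Finset.prod_nonneg fun h _ => by positivity
    have h1 : ∀ x ∈ range (r 0 + 1), ∑ i ∈ Fintype.piFinset fun h : Fin M => range (r h.succ + 1),
        (c + ∑ h, (((Fin.cons x i : Fin (M + 1) → ℕ) h : ℝ) / r h - 1 / 2)) ^ 2 ≤
        ((c + ((x : ℝ) / r 0 - 1 / 2)) ^ 2 + M / 4) * N := by
      intro x _
      have h2 := ih (fun h => r h.succ) (fun h => hr h.succ) (c + ((x : ℝ) / r 0 - 1 / 2))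
      refine le_trans (le_of_eq ?_) h2
      refine Finset.sum_congr rfl fun i _ => ?_
      rw [Fin.sum_univ_succ]
      simp only [Fin.cons_zero, Fin.cons_succ]
      rw [add_assoc]
    refine (Finset.sum_le_sum h1).trans ?_
    rw [← Finset.sum_mul, Finset.sum_add_distrib, Finset.sum_const, Finset.card_range,
      nsmul_eq_mul]
    have h3 := Mom_one (r 0) (hr 0) c
    have h4 : ∑ x ∈ range (r 0 + 1), (c + ((x : ℝ) / r 0 - 1 / 2)) ^ 2 +
        ((r 0 + 1 : ℕ) : ℝ) * (M / 4) ≤ (c ^ 2 + ((M + 1 : ℕ) : ℝ) / 4) * ((r 0 : ℝ) + 1) := by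
      push_cast
      have e : (c ^ 2 + ((M : ℝ) + 1) / 4) * ((r 0 : ℝ) + 1) =
          (c ^ 2 + 1 / 4) * ((r 0 : ℝ) + 1) + ((r 0 : ℝ) + 1) * (M / 4) := by ring
      rw [e]
      linarith
    rw [← mul_assoc]
    exact mul_le_mul_of_nonneg_right h4 hN0

/-- Chebyshev: if `∑ i_h/r_h < M/4` then (∑ (i_h/r_h - 1/2))^2 > M^2/16; `second_moment` with `c = 0`
gives `card ≤ (M/4)/(M^2/16) N = 4 N/M ≤ N/(2 s)`. -/
theorem count_box (M s : ℕ) (hs : 1 ≤ s) (hM : 8 * s ≤ M) (r : Fin M → ℕ) (hr : ∀ h, 1 ≤ r h) :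
    2 * (s * ((Fintype.piFinset fun h => range (r h + 1)).filter
      (fun i : Fin M → ℕ => ∑ h, (i h : ℝ) / r h < (M : ℝ) / 4)).card) ≤ ∏ h, (r h + 1) := by
  set B := Fintype.piFinset fun h => range (r h + 1) with hB
  set F := B.filter (fun i : Fin M → ℕ => ∑ h, (i h : ℝ) / r h < (M : ℝ) / 4) with hF
  have hM1 : (8 : ℝ) * s ≤ M := by exact_mod_cast hM
  have hs1 : (1 : ℝ) ≤ s := by exact_mod_cast hs
  have hM0 : (0 : ℝ) < M := by linarith
  have h1 := second_moment M r hr 0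
  have h2 : (F.card : ℝ) * (M ^ 2 / 16) ≤ (0 ^ 2 + (M : ℝ) / 4) * ∏ h, ((r h : ℝ) + 1) := by
    refine le_trans ?_ h1
    rw [← hB]
    calc (F.card : ℝ) * (M ^ 2 / 16) = ∑ i ∈ F, ((M : ℝ) ^ 2 / 16) := by
          rw [Finset.sum_const, nsmul_eq_mul]
      _ ≤ ∑ i ∈ F, (0 + ∑ h, ((i h : ℝ) / r h - 1 / 2)) ^ 2 := by
          refine Finset.sum_le_sum fun i hi => ?_
          have h3 := (Finset.mem_filter.1 hi).2
          have h4 : ∑ h, ((i h : ℝ) / r h - 1 / 2) = ∑ h, (i h : ℝ) / r h - M / 2 := by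
            rw [Finset.sum_sub_distrib, Finset.sum_const, Finset.card_univ, Fintype.card_fin,
              nsmul_eq_mul]
            ring
          rw [h4]
          nlinarith
      _ ≤ ∑ i ∈ B, (0 + ∑ h, ((i h : ℝ) / r h - 1 / 2)) ^ 2 :=
          Finset.sum_le_sum_of_subset_of_nonneg (Finset.filter_subset _ _)
            fun i _ _ => sq_nonneg _
  set N : ℝ := ∏ h, ((r h : ℝ) + 1) with hN
  have h5 : (F.card : ℝ) * M ≤ 4 * N := by
    have h6 : (M / 16 : ℝ) * ((F.card : ℝ) * M) ≤ (M / 16 : ℝ) * (4 * N) := by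
      calc (M / 16 : ℝ) * ((F.card : ℝ) * M) = (F.card : ℝ) * (M ^ 2 / 16) := by ring
        _ ≤ (0 ^ 2 + (M : ℝ) / 4) * N := h2
        _ = (M / 16 : ℝ) * (4 * N) := by ring
    exact le_of_mul_le_mul_left h6 (by positivity)
  have h7 : (8 * s : ℝ) * F.card ≤ M * F.card :=
    mul_le_mul_of_nonneg_right hM1 (Nat.cast_nonneg _)
  have h8 : (2 : ℝ) * (s * F.card) ≤ N := by linarith
  have h9 : ((2 * (s * F.card) : ℕ) : ℝ) ≤ ((∏ h, (r h + 1) : ℕ) : ℝ) := by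
    push_cast
    exact h8
  exact_mod_cast h9

end W156h39
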