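import Pool.Agent.W_156d3b_h39.LenB
import Pool.Agent.W_156d3b_h39.Mom

/-!
# The auxiliary polynomial (Siegel's lemma)
-/

set_option autoImplicit false

namespace W156h39

open MvPolynomial Finset

attribute [local instance] Matrix.seminormedAddCommGroup

theorem Aux1_coeff {M : ℕ} (box : Finset (Fin M → ℕ)) (t : (Fin M → ℕ) → ℤ) (J : Fin M →₀ ℕ) :
    coeff J (∑ j ∈ box, monomial (Finsupp.equivFunOnFinite.symm j) (t j) : MvPolynomial (Fin M) ℤ) =
      if (⇑J : Fin M → ℕ) ∈ box then t J else 0 := by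
  classical
  rw [coeff_sum]
  simp only [coeff_monomial]
  split_ifs with h
  · rw [Finset.sum_eq_single (⇑J : Fin M → ℕ)]
    · rw [if_pos]
      exact Finsupp.equivFunOnFinite.symm_apply_apply J
    · intro j _ hj
      rw [if_neg]
      intro he
      apply hj
      rw [← he]
      rfl
    · intro h'
      exact absurd h h'
  · apply Finset.sum_eq_zero
    intro j hj
    rw [if_neg]
    intro he
    apply h
    rw [← he]
    exact hj

theorem Aux1_sum {M : ℕ} (box : Finset (Fin M → ℕ)) (t : (Fin M → ℕ) → ℤ)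
    (P : MvPolynomial (Fin M) ℤ)
    (hP : ∀ J : Fin M →₀ ℕ, coeff J P = if (⇑J : Fin M → ℕ) ∈ box then t J else 0)
    {R : Type*} [AddCommMonoid R] (F : (Fin M → ℕ) → ℤ → R) (hF : ∀ j, F j 0 = 0) :
    ∑ J ∈ P.support, F J (coeff J P) = ∑ j ∈ box, F j (t j) := by
  classical
  have hsub : P.support ⊆ box.map Finsupp.equivFunOnFinite.symm.toEmbedding := by
    intro J hJ
    rw [mem_support_iff, hP] at hJ
    have h1 : (⇑J : Fin M → ℕ) ∈ box := by
      by_contra h
      exact hJ (if_neg h)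
    rw [Finset.mem_map]
    exact ⟨⇑J, h1, Finsupp.equivFunOnFinite.symm_apply_apply J⟩
  rw [Finset.sum_subset hsub fun J _ hJ => by rw [notMem_support_iff.1 hJ, hF], Finset.sum_map]
  refine Finset.sum_congr rfl fun j hj => ?_
  have e1 : (⇑(Finsupp.equivFunOnFinite.symm j : Fin M →₀ ℕ) : Fin M → ℕ) = j := rfl
  show F (⇑(Finsupp.equivFunOnFinite.symm j : Fin M →₀ ℕ))
    (coeff (Finsupp.equivFunOnFinite.symm j : Fin M →₀ ℕ) P) = F j (t j)
  rw [hP, e1, if_pos hj]

theorem Aux1_siegel {E T : Type*} [Fintype E] [Fintype T] [DecidableEq T] (A : Matrix E T ℤ)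
    (hE : 0 < Fintype.card E) (hT : 2 * Fintype.card E ≤ Fintype.card T) (B : ℕ) (hB : 1 ≤ B)
    (hA : ∀ e t, (A e t).natAbs ≤ B) :
    ∃ t : T → ℤ, t ≠ 0 ∧ A.mulVec t = 0 ∧ ∀ k, (t k).natAbs ≤ Fintype.card T * B := by
  classical
  obtain ⟨t, ht0, htA, htn⟩ := Int.Matrix.exists_ne_zero_int_vec_norm_le A (by omega) hE
  refine ⟨t, ht0, htA, fun k => ?_⟩
  have hEpos : (0 : ℝ) < Fintype.card E := by exact_mod_cast hE
  have hT' : (2 : ℝ) * Fintype.card E ≤ Fintype.card T := by exact_mod_cast hT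
  have he : ((Fintype.card E : ℝ) / ((Fintype.card T : ℝ) - (Fintype.card E : ℝ))) ≤ 1 := by
    rw [div_le_one (by linarith)]
    linarith
  have hAn : max 1 ‖A‖ ≤ (B : ℝ) := by
    refine max_le (by exact_mod_cast hB) ((Matrix.norm_le_iff (by positivity)).2 fun p k => ?_)
    rw [Int.norm_eq_abs, ← Int.cast_abs, Int.abs_eq_natAbs]
    exact_mod_cast hA p k
  have hTpos : (1 : ℝ) ≤ Fintype.card T := by
    have : 1 ≤ Fintype.card T := by omega
    exact_mod_cast this
  have hbase : (1 : ℝ) ≤ Fintype.card T * max 1 ‖A‖ := by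
    have h1 : (1 : ℝ) ≤ max 1 ‖A‖ := le_max_left _ _
    nlinarith
  have h3 : ‖t k‖ ≤ ‖t‖ := norm_le_pi_norm t k
  have h4 : ‖t k‖ ≤ Fintype.card T * B := by
    calc ‖t k‖ ≤ ‖t‖ := h3
      _ ≤ _ := htn
      _ ≤ ((Fintype.card T : ℝ) * max 1 ‖A‖) ^ (1 : ℝ) := Real.rpow_le_rpow_of_exponent_le hbase he
      _ = (Fintype.card T : ℝ) * max 1 ‖A‖ := Real.rpow_one _
      _ ≤ Fintype.card T * B := mul_le_mul_of_nonneg_left hAn (by positivity)
  rw [Int.norm_eq_abs, ← Int.cast_abs, Int.abs_eq_natAbs] at h4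
  exact_mod_cast h4

/-- PROOF. `Int.Matrix.exists_ne_zero_int_vec_norm_le` (compare `Sur46.siegel` in
`W_156d3b_h46/Siegel.lean`) with unknowns `c : box → ℤ`, box = `piFinset (range (r h + 1))`, `N` elements, and one
equation for every `p : Fin s` and every `i` in the box with `∑ i_h/r_h < M/4`:
`∑ j, c_j ∏ h, (j h).choose (i h) * (a p h) ^ (j h - i h) = 0`.  By `count_box` the number of equations is at
most `N/2` (it is positive: `i = 0`), so the exponent `m/(n-m)` is at most 1.  The entries are at most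
`A = ∏ h, 2 ^ r h * D h ^ r h`, so `|c_j| ≤ N A`.  `P = ∑ monomial j (c_j)`: `L1 P ≤ N * (N A)` and
`N = ∏ (r h + 1) ≤ 2 ^ ∑ r h`.  `OrdGe`: by `coeff_sh` the coefficient `i` of `sh (a p) P` is the left side of
the equation (for `i` outside of the box it is 0, some `choose` vanishes). -/
theorem exists_aux (M s : ℕ) (hs : 1 ≤ s) (hM : 8 * s ≤ M) (r : Fin M → ℕ) (hr : ∀ h, 1 ≤ r h)
    (a : Fin s → Fin M → ℤ) (D : Fin M → ℕ) (hD1 : ∀ h, 1 ≤ D h)
    (hD : ∀ p h, (a p h).natAbs ≤ D h) :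
    ∃ P : MvPolynomial (Fin M) ℤ, P ≠ 0 ∧ (∀ h, degreeOf h P ≤ r h) ∧
      L1 P ≤ 8 ^ (∑ h, r h) * ∏ h, D h ^ r h ∧ ∀ p, OrdGe r ((M : ℝ) / 4) (sh (a p) P) := by
  classical
  obtain ⟨box, hbox⟩ : ∃ box : Finset (Fin M → ℕ), box = Fintype.piFinset fun h => range (r h + 1) :=
    ⟨_, rfl⟩
  have hmem : ∀ j : Fin M → ℕ, j ∈ box ↔ ∀ h, j h ≤ r h := by
    intro j
    rw [hbox, Fintype.mem_piFinset]
    simp only [Finset.mem_range, Nat.lt_succ_iff]
  obtain ⟨small, hsmall⟩ : ∃ small : Finset (Fin M → ℕ), small = box.filter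
      (fun i : Fin M → ℕ => ∑ h, (i h : ℝ) / r h < (M : ℝ) / 4) := ⟨_, rfl⟩
  have hcount := count_box M s hs hM r hr
  rw [← hbox, ← hsmall] at hcount
  have hcard : box.card = ∏ h, (r h + 1) := by
    rw [hbox, Fintype.card_piFinset]
    simp
  rw [← hcard] at hcount
  have h0 : (fun _ => 0 : Fin M → ℕ) ∈ small := by
    rw [hsmall, Finset.mem_filter, hmem]
    refine ⟨fun _ => Nat.zero_le _, ?_⟩
    have hM8 : (8 : ℝ) ≤ M := by
      have : 8 ≤ M := by omega
      exact_mod_cast this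
    simp only [Nat.cast_zero, zero_div, Finset.sum_const_zero]
    linarith
  have hsmallpos : 0 < small.card := Finset.card_pos.2 ⟨_, h0⟩
  have hEc : Fintype.card (Fin s × small) = s * small.card := by
    rw [Fintype.card_prod, Fintype.card_fin, Fintype.card_coe]
  have hTc : Fintype.card box = box.card := Fintype.card_coe box
  let f : Fin s → (Fin M → ℕ) → (Fin M → ℕ) → ℤ := fun p i j =>
    ∏ h, ((((j h).choose (i h) : ℕ) : ℤ) * a p h ^ (j h - i h))
  let A : Matrix (Fin s × small) box ℤ := fun e j => f e.1 e.2.1 j.1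
  have hfle : ∀ p i j, j ∈ box → (f p i j).natAbs ≤ 2 ^ (∑ h, r h) * ∏ h, D h ^ r h := by
    intro p i j hj
    rw [hmem] at hj
    show (∏ h, ((((j h).choose (i h) : ℕ) : ℤ) * a p h ^ (j h - i h))).natAbs ≤ _
    rw [show (∏ h, ((((j h).choose (i h) : ℕ) : ℤ) * a p h ^ (j h - i h))).natAbs =
      ∏ h, ((((j h).choose (i h) : ℕ) : ℤ) * a p h ^ (j h - i h)).natAbs from
        map_prod Int.natAbsHom _ _, ← Finset.prod_pow_eq_pow_sum, ← Finset.prod_mul_distrib]
    refine Finset.prod_le_prod' fun h _ => ?_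
    rw [Int.natAbs_mul, Int.natAbs_natCast, Int.natAbs_pow]
    refine Nat.mul_le_mul ?_ ?_
    · exact (Nat.choose_le_two_pow _ _).trans (Nat.pow_le_pow_right (by norm_num) (hj h))
    · calc (a p h).natAbs ^ (j h - i h) ≤ D h ^ (j h - i h) := Nat.pow_le_pow_left (hD p h) _
        _ ≤ D h ^ r h := Nat.pow_le_pow_right (hD1 h) ((Nat.sub_le _ _).trans (hj h))
  have hDpos : 1 ≤ 2 ^ (∑ h, r h) * ∏ h, D h ^ r h :=
    Nat.mul_pos (by positivity) (Finset.prod_pos fun h _ => Nat.pow_pos (hD1 h))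
  obtain ⟨t, ht0, htA, htn⟩ := Aux1_siegel A
    (by rw [hEc]; exact Nat.mul_pos (by omega) hsmallpos) (by rw [hEc, hTc]; exact hcount) _ hDpos
    (fun e j => hfle e.1 e.2.1 j.1 j.2)
  let t' : (Fin M → ℕ) → ℤ := fun j => if h : j ∈ box then t ⟨j, h⟩ else 0
  let P : MvPolynomial (Fin M) ℤ := ∑ j ∈ box, monomial (Finsupp.equivFunOnFinite.symm j) (t' j)
  have hP : ∀ J : Fin M →₀ ℕ, coeff J P = if (⇑J : Fin M → ℕ) ∈ box then t' J else 0 :=
    fun J => Aux1_coeff box t' J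
  have ht' : ∀ j : box, t' j.1 = t j := by
    intro j
    show (if h : j.1 ∈ box then t ⟨j.1, h⟩ else 0) = t j
    rw [dif_pos j.2]
  refine ⟨P, ?_, ?_, ?_, ?_⟩
  · intro hP0
    apply ht0
    funext j
    have h1 := hP (Finsupp.equivFunOnFinite.symm j.1)
    have e1 : (⇑(Finsupp.equivFunOnFinite.symm j.1 : Fin M →₀ ℕ) : Fin M → ℕ) = j.1 := rfl
    rw [hP0, coeff_zero, e1, if_pos j.2, ht'] at h1
    exact h1.symm
  · intro h
    rw [degreeOf_le_iff]
    intro J hJ
    rw [mem_support_iff, hP] at hJ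
    have h1 : (⇑J : Fin M → ℕ) ∈ box := by
      by_contra h
      exact hJ (if_neg h)
    exact (hmem _).1 h1 h
  · have h1 : L1 P = ∑ j ∈ box, (t' j).natAbs :=
      Aux1_sum box t' P hP (fun _ z => z.natAbs) (fun _ => rfl)
    have h2 : ∀ j ∈ box, (t' j).natAbs ≤ box.card * (2 ^ (∑ h, r h) * ∏ h, D h ^ r h) := by
      intro j hj
      have := htn ⟨j, hj⟩
      rw [← ht', hTc] at this
      exact this
    have h3 : box.card ≤ 2 ^ (∑ h, r h) := by
      rw [hcard, ← Finset.prod_pow_eq_pow_sum]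
      exact Finset.prod_le_prod' fun h _ => Nat.lt_two_pow_self
    calc L1 P = ∑ j ∈ box, (t' j).natAbs := h1
      _ ≤ ∑ _j ∈ box, box.card * (2 ^ (∑ h, r h) * ∏ h, D h ^ r h) := Finset.sum_le_sum h2
      _ = box.card * (box.card * (2 ^ (∑ h, r h) * ∏ h, D h ^ r h)) := by
          rw [Finset.sum_const, smul_eq_mul]
      _ ≤ 2 ^ (∑ h, r h) * (2 ^ (∑ h, r h) * (2 ^ (∑ h, r h) * ∏ h, D h ^ r h)) :=
          Nat.mul_le_mul h3 (Nat.mul_le_mul_right _ h3)
      _ = 8 ^ (∑ h, r h) * ∏ h, D h ^ r h := by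
          rw [show (8 : ℕ) = 2 * 2 * 2 by norm_num, mul_pow, mul_pow]
          ring
  · intro p i hi
    by_contra hlt
    push Not at hlt
    apply hi
    rw [coeff_sh]
    have h1 : ∑ J ∈ P.support, coeff J P * ∏ h, ((((J h).choose (i h) : ℕ) : ℤ) * a p h ^ (J h - i h)) =
        ∑ j ∈ box, t' j * f p i j :=
      Aux1_sum box t' P hP (fun j z => z * f p i j) (fun _ => zero_mul _)
    rw [h1]
    by_cases hib : (⇑i : Fin M → ℕ) ∈ box
    · have his : (⇑i : Fin M → ℕ) ∈ small := by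
        rw [hsmall, Finset.mem_filter]
        exact ⟨hib, hlt⟩
      have h2 := congrFun htA (p, ⟨⇑i, his⟩)
      have h3 : ∑ j : box, f p i j.1 * t j = 0 := h2
      rw [← h3, ← Finset.sum_coe_sort box (fun j => t' j * f p i j)]
      refine Finset.sum_congr rfl fun j _ => ?_
      rw [ht', mul_comm]
    · refine Finset.sum_eq_zero fun j hj => ?_
      rw [hmem] at hib hj
      push Not at hib
      obtain ⟨h, hh⟩ := hib
      have h2 : f p i j = 0 := by
        refine Finset.prod_eq_zero (Finset.mem_univ h) ?_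
        rw [Nat.choose_eq_zero_of_lt (lt_of_le_of_lt (hj h) hh), Nat.cast_zero, zero_mul]
      rw [h2, mul_zero]

end W156h39
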