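import Mathlib

/-!
# The average of `max 0 (a - ν / r)`
-/

set_option autoImplicit false

namespace W156h39

theorem Avg_sum (a r : ℝ) (m : ℕ) :
    ∑ ν ∈ Finset.range m, (a - (ν : ℝ) / r) = m * a - m * (m - 1) / 2 / r := by
  induction m with
  | zero => simp
  | succ m ih =>
    rw [Finset.sum_range_succ, ih]
    push_cast
    ring

theorem Avg_low (a r : ℝ) (hr : 0 < r) (m : ℕ) (hm : (m : ℝ) - 1 ≤ a * r) :
    m * a / 2 ≤ ∑ ν ∈ Finset.range m, (a - (ν : ℝ) / r) := by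
  rw [Avg_sum]
  have h1 : (m : ℝ) * (m - 1) / 2 / r ≤ m * a / 2 := by
    rw [div_le_iff₀ hr]
    have := mul_le_mul_of_nonneg_left hm (Nat.cast_nonneg (α := ℝ) m)
    linarith
  linarith

/-- Case `l ≤ 1`: clear.  Case `l - 1 ≤ a r`: `∑_{ν<l} (a - ν/r) = l (a - (l-1)/(2r)) ≥ l a / 2`.
Case `l - 1 > a r`: let `q = ⌊a r⌋₊ < l`; the terms `ν ≤ q` give
at least (q+1)(a - q/(2r)) ≥ (a r)(a/2), and `r ≥ l/2` as `2 ≤ l ≤ r + 1`. -/
theorem avg_max (a : ℝ) (ha0 : 0 ≤ a) (ha1 : a ≤ 1) (r l : ℕ) (hr : 1 ≤ r) (hl : l ≤ r + 1) :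
    (l : ℝ) * a ^ 2 / 4 ≤ ∑ ν : Fin l, max 0 (a - (ν : ℝ) / r) := by
  have hr0 : (0 : ℝ) < r := by exact_mod_cast hr
  rw [Fin.sum_univ_eq_sum_range (fun ν : ℕ => max 0 (a - (ν : ℝ) / r)) l]
  have key : ∀ m : ℕ, m ≤ l → (m : ℝ) - 1 ≤ a * r →
      m * a / 2 ≤ ∑ ν ∈ Finset.range l, max 0 (a - (ν : ℝ) / r) := by
    intro m hml hm
    calc (m : ℝ) * a / 2 ≤ ∑ ν ∈ Finset.range m, (a - (ν : ℝ) / r) := Avg_low a r hr0 m hm
      _ ≤ ∑ ν ∈ Finset.range m, max 0 (a - (ν : ℝ) / r) :=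
          Finset.sum_le_sum fun ν _ => le_max_right _ _
      _ ≤ ∑ ν ∈ Finset.range l, max 0 (a - (ν : ℝ) / r) :=
          Finset.sum_le_sum_of_subset_of_nonneg (Finset.range_mono hml)
            fun ν _ _ => le_max_left _ _
  have haa : a ^ 2 ≤ a := by nlinarith
  rcases le_or_gt ((l : ℝ) - 1) (a * r) with h | h
  · refine le_trans ?_ (key l le_rfl h)
    have h1 : (l : ℝ) * a ^ 2 ≤ l * a := mul_le_mul_of_nonneg_left haa (Nat.cast_nonneg l)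
    have h2 : 0 ≤ (l : ℝ) * a := by positivity
    linarith
  · have har : 0 ≤ a * r := by positivity
    have hq1 : ((⌊a * r⌋₊ : ℕ) : ℝ) ≤ a * r := Nat.floor_le har
    have hq2 : a * r < (⌊a * r⌋₊ : ℕ) + 1 := Nat.lt_floor_add_one _
    have hql : ⌊a * r⌋₊ + 1 ≤ l := by
      have : ((⌊a * r⌋₊ + 1 : ℕ) : ℝ) < l + 0 + 0 := by
        push_cast
        linarith
      have h3 : ((⌊a * r⌋₊ + 1 : ℕ) : ℝ) < l := by linarith
      exact (by exact_mod_cast h3 : ⌊a * r⌋₊ + 1 < l).le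
    refine le_trans ?_ (key (⌊a * r⌋₊ + 1) hql (by push_cast; linarith))
    have h4 : (l : ℝ) ≤ 2 * r := by
      have : l ≤ 2 * r := by omega
      exact_mod_cast this
    have h5 : (a * r) * a ≤ ((⌊a * r⌋₊ + 1 : ℕ) : ℝ) * a :=
      mul_le_mul_of_nonneg_right (by push_cast; linarith) ha0
    have h6 : (l : ℝ) * a ^ 2 ≤ 2 * r * a ^ 2 := mul_le_mul_of_nonneg_right h4 (sq_nonneg a)
    have h7 : 2 * r * a ^ 2 = 2 * ((a * r) * a) := by ring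
    linarith

end W156h39
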