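import Pool.Agent.W_156d3b_h39.Ext

/-!
# Decomposition of a polynomial
-/

set_option autoImplicit false

namespace W156h39

open MvPolynomial Finset

variable {M : ℕ}

/-- PROOF. Let `p_a = coeff of X_0^a` (`a ≤ r`; `finSuccEquiv`, `finSuccEquiv_coeff_coeff`), `U` the span of
the `p_a` (dimension `l ≤ r + 1`, `l ≥ 1` as `P ≠ 0`), `f` a basis of `U`, `p_a = ∑ j, b a j • f j`, and
`g_j = ∑ a, b a j X^a`.  The `g_j` are linearly independent: if `∑ c_j g_j = 0` then
`∑ j, b a j c_j = 0` for all `a`, so the linear form on `U` with `f_j ↦ c_j` kills all `p_a`, hence `U`. -/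
theorem exists_decomp (P : MvPolynomial (Fin (M + 1)) ℚ) (hP : P ≠ 0) (r : ℕ)
    (hr : degreeOf 0 P ≤ r) :
    ∃ l : ℕ, 1 ≤ l ∧ l ≤ r + 1 ∧ ∃ (g : Fin l → MvPolynomial (Fin 1) ℚ)
      (f : Fin l → MvPolynomial (Fin M) ℚ), LinearIndependent ℚ g ∧ LinearIndependent ℚ f ∧
      P = ∑ j, ext (g j) (f j) := by
  classical
  have hmem : ∀ a : Fin (r + 1), (finSuccEquiv ℚ M P).coeff (a : ℕ) ∈
      Submodule.span ℚ (Set.range fun a : Fin (r + 1) => (finSuccEquiv ℚ M P).coeff (a : ℕ)) :=
    fun a => Submodule.subset_span ⟨a, rfl⟩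
  set U : Submodule ℚ (MvPolynomial (Fin M) ℚ) :=
    Submodule.span ℚ (Set.range fun a : Fin (r + 1) => (finSuccEquiv ℚ M P).coeff (a : ℕ)) with hU
  have : FiniteDimensional ℚ U := FiniteDimensional.span_of_finite ℚ (Set.finite_range _)
  set b := Module.finBasis ℚ U with hb
  set q : Fin (r + 1) → U := fun a => ⟨(finSuccEquiv ℚ M P).coeff (a : ℕ), hmem a⟩ with hq
  -- coefficients of `P` beyond `r`
  have hbig : ∀ (a : ℕ) (m : Fin M →₀ ℕ), r < a → coeff (Finsupp.cons a m) P = 0 := by
    intro a m ha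
    by_contra hcon
    have h1 := degreeOf_le_iff.1 hr _ (mem_support_iff.2 hcon)
    rw [Finsupp.cons_zero] at h1
    omega
  have hU0 : U ≠ ⊥ := by
    intro h
    apply hP
    ext m
    rw [coeff_zero, ← Finsupp.cons_tail m]
    by_cases hm : r < m 0
    · exact hbig _ _ hm
    · have h1 : (finSuccEquiv ℚ M P).coeff (m 0) = 0 := by
        have h2 := hmem ⟨m 0, by omega⟩
        rw [h, Submodule.mem_bot] at h2
        exact h2
      rw [← finSuccEquiv_coeff_coeff, h1, coeff_zero]
  refine ⟨Module.finrank ℚ U, ?_, ?_, fun j => ∑ a : Fin (r + 1),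
    monomial (Finsupp.single 0 (a : ℕ)) (b.repr (q a) j), fun j => (b j : MvPolynomial (Fin M) ℚ),
    ?_, ?_, ?_⟩
  · exact Submodule.one_le_finrank_iff.2 hU0
  · have h1 := finrank_range_le_card (R := ℚ)
      (fun a : Fin (r + 1) => (finSuccEquiv ℚ M P).coeff (a : ℕ))
    rw [Fintype.card_fin] at h1
    exact h1
  · rw [Fintype.linearIndependent_iff]
    intro c hc
    have h1 : ∀ a : Fin (r + 1), ∑ j, b.repr (q a) j • c j = 0 := by
      intro a
      have h2 := congrArg (coeff (Finsupp.single 0 (a : ℕ))) hc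
      rw [coeff_sum, coeff_zero] at h2
      rw [← h2]
      refine sum_congr rfl fun j _ => ?_
      rw [coeff_smul, coeff_sum, sum_eq_single a]
      · rw [coeff_monomial, if_pos rfl, smul_eq_mul, smul_eq_mul, mul_comm]
      · intro a' _ ha'
        rw [coeff_monomial, if_neg]
        intro h3
        apply ha'
        have h4 := DFunLike.congr_fun h3 (0 : Fin 1)
        rw [Finsupp.single_eq_same, Finsupp.single_eq_same] at h4
        exact Fin.ext h4
      · intro h
        exact absurd (mem_univ _) h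
    have h2 : ∀ (u : MvPolynomial (Fin M) ℚ) (hu : u ∈ U), b.constr ℚ c ⟨u, hu⟩ = 0 := by
      intro u hu
      refine Submodule.span_induction (p := fun u hu => b.constr ℚ c ⟨u, hu⟩ = 0)
        ?_ ?_ ?_ ?_ hu
      · rintro x ⟨a, rfl⟩
        rw [Module.Basis.constr_apply_fintype]
        exact h1 a
      · exact map_zero _
      · intro x y hx hy h3 h4
        have h5 : (⟨x + y, U.add_mem hx hy⟩ : U) = ⟨x, hx⟩ + ⟨y, hy⟩ := rfl
        rw [h5, map_add, h3, h4, add_zero]
      · intro s x hx h3
        have h5 : (⟨s • x, U.smul_mem s hx⟩ : U) = s • ⟨x, hx⟩ := rfl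
        rw [h5, map_smul, h3, smul_zero]
    intro j
    have h3 := h2 (b j) (b j).2
    rw [Subtype.coe_eta, Module.Basis.constr_basis] at h3
    exact h3
  · exact b.linearIndependent.map' U.subtype (Submodule.ker_subtype U)
  · ext m
    rw [← Finsupp.cons_tail m, coeff_sum]
    simp only [coeff_ext]
    by_cases hm : r < m 0
    · rw [hbig _ _ hm]
      symm
      refine sum_eq_zero fun j _ => ?_
      rw [coeff_sum, sum_eq_zero, zero_mul]
      intro a _
      rw [coeff_monomial, if_neg]
      intro h3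
      have h4 := DFunLike.congr_fun h3 (0 : Fin 1)
      rw [Finsupp.single_eq_same, Finsupp.single_eq_same] at h4
      have := a.isLt
      omega
    · have hlt : m 0 < r + 1 := by omega
      have h1 : ∀ j, coeff (Finsupp.single 0 (m 0)) (∑ a : Fin (r + 1),
          monomial (Finsupp.single (0 : Fin 1) (a : ℕ)) (b.repr (q a) j)) =
          b.repr (q ⟨m 0, hlt⟩) j := by
        intro j
        rw [coeff_sum, sum_eq_single (⟨m 0, hlt⟩ : Fin (r + 1))]
        · rw [coeff_monomial, if_pos rfl]
        · intro a' _ ha'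
          rw [coeff_monomial, if_neg]
          intro h3
          apply ha'
          have h4 := DFunLike.congr_fun h3 (0 : Fin 1)
          rw [Finsupp.single_eq_same, Finsupp.single_eq_same] at h4
          exact Fin.ext h4
        · intro h
          exact absurd (mem_univ _) h
      simp only [h1]
      have h2 := congrArg (fun u : U => coeff m.tail (u : MvPolynomial (Fin M) ℚ))
        (b.sum_repr (q ⟨m 0, hlt⟩))
      simp only [Submodule.coe_sum, Submodule.coe_smul, coeff_sum, coeff_smul, smul_eq_mul] at h2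
      rw [h2, ← finSuccEquiv_coeff_coeff]

end W156h39
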