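import Mathlib

/-!
MP_156d3b_nt (the equation n! = m! k!), helper39.

THEOREM. n - m = o(log log n) for the solutions of n! = m! k!, m > k >= 2.

Proof by the method of Roth (Ridout) for integer moving targets.  This file: Hasse derivatives `hD`,
translations `sh`, weights, index, length `L1` of integer polynomials.
-/

set_option autoImplicit false

noncomputable section

namespace W156h39

open MvPolynomial Finset

section

variable {σ : Type*} [Fintype σ] {R : Type*} [CommRing R]

/-- divided (Hasse) derivative of order `I`: `X^j ↦ ∏ h, (j h).choose (I h) * X^(j - I)` -/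
def hD (I : σ →₀ ℕ) : MvPolynomial σ R →ₗ[R] MvPolynomial σ R :=
  (basisMonomials σ R).constr R fun j => monomial (j - I) (∏ h, (((j h).choose (I h) : ℕ) : R))

omit [Fintype σ] in
/-- the polynomial `P (X + x)` -/
def sh (x : σ → R) : MvPolynomial σ R →ₐ[R] MvPolynomial σ R := aeval fun h => X h + C (x h)

/-- weight of an exponent -/
def wt (r : σ → ℕ) (i : σ →₀ ℕ) : ℝ := ∑ h, (i h : ℝ) / r h

/-- all monomials of `P` have weight `≥ τ` -/
def OrdGe (r : σ → ℕ) (τ : ℝ) (P : MvPolynomial σ R) : Prop := ∀ i, P.coeff i ≠ 0 → τ ≤ wt r i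

omit [Fintype σ] in
/-- sum of the absolute values of the coefficients -/
def L1 (P : MvPolynomial σ ℤ) : ℕ := ∑ i ∈ P.support, (P.coeff i).natAbs

end

section

variable {M : ℕ} {R : Type*} [CommRing R]

/-- `g (X_0) * f (X_1, ..., X_M)` -/
def ext (g : MvPolynomial (Fin 1) R) (f : MvPolynomial (Fin M) R) : MvPolynomial (Fin (M + 1)) R :=
  rename (fun _ => 0) g * rename Fin.succ f

end

end W156h39
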