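import Pool.Agent.W_156d3b_h39.Len

/-!
# Products `g (X_0) f (X_1, ..., X_M)`
-/

set_option autoImplicit false

namespace W156h39

open MvPolynomial Finset

section

variable {M : ℕ} {R : Type*} [CommRing R]

theorem ext_add_left (g g' : MvPolynomial (Fin 1) R) (f : MvPolynomial (Fin M) R) :
    ext (g + g') f = ext g f + ext g' f := by
  unfold ext; rw [map_add, add_mul]

theorem ext_add_right (g : MvPolynomial (Fin 1) R) (f f' : MvPolynomial (Fin M) R) :
    ext g (f + f') = ext g f + ext g f' := by
  unfold ext; rw [map_add, mul_add]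

theorem ext_mul (g g' : MvPolynomial (Fin 1) R) (f f' : MvPolynomial (Fin M) R) :
    ext g f * ext g' f' = ext (g * g') (f * f') := by
  unfold ext; rw [map_mul, map_mul]; ring

theorem Ext_dom (s : Fin 1 →₀ ℕ) (t : Fin M →₀ ℕ) :
    Finsupp.mapDomain (fun _ : Fin 1 => (0 : Fin (M + 1))) s + Finsupp.mapDomain Fin.succ t =
      Finsupp.cons (s 0) t := by
  have hinj : Function.Injective (fun _ : Fin 1 => (0 : Fin (M + 1))) := fun a b _ =>
    Subsingleton.elim a b
  refine Finsupp.ext fun h => ?_
  rw [Finsupp.add_apply]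
  refine Fin.cases ?_ (fun i => ?_) h
  · have h1 := Finsupp.mapDomain_apply hinj s 0
    rw [h1, Finsupp.cons_zero, Finsupp.mapDomain_of_notMem_range, add_zero]
    rintro ⟨i, hi⟩
    exact Fin.succ_ne_zero i hi
  · rw [Finsupp.mapDomain_apply (Fin.succ_injective M), Finsupp.cons_succ,
      Finsupp.mapDomain_of_notMem_range, zero_add]
    rintro ⟨_, hi⟩
    exact Fin.succ_ne_zero i hi.symm

/-- `rename_monomial`; `mapDomain (fun _ => 0) s + mapDomain Fin.succ t = Finsupp.cons (s 0) t`
(`Finsupp.ext`, `Fin.cases`) -/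
theorem ext_monomial (s : Fin 1 →₀ ℕ) (t : Fin M →₀ ℕ) (c d : R) :
    ext (monomial s c) (monomial t d) = monomial (Finsupp.cons (s 0) t) (c * d) := by
  unfold ext
  rw [rename_monomial, rename_monomial, monomial_mul, Ext_dom]

theorem Ext_single (s : Fin 1 →₀ ℕ) (a : ℕ) : s = Finsupp.single 0 a ↔ s 0 = a := by
  constructor
  · rintro rfl
    rw [Finsupp.single_eq_same]
  · rintro rfl
    refine Finsupp.ext fun h => ?_
    rw [Subsingleton.elim h 0, Finsupp.single_eq_same]

theorem Ext_sub (a b : ℕ) (s t : Fin M →₀ ℕ) :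
    Finsupp.cons a s - Finsupp.cons b t = Finsupp.cons (a - b) (s - t) := by
  refine Finsupp.ext fun h => ?_
  rw [Finsupp.tsub_apply]
  refine Fin.cases ?_ (fun i => ?_) h
  · rw [Finsupp.cons_zero, Finsupp.cons_zero, Finsupp.cons_zero]
  · rw [Finsupp.cons_succ, Finsupp.cons_succ, Finsupp.cons_succ, Finsupp.tsub_apply]

/-- bilinearity and `ext_monomial` -/
theorem coeff_ext (g : MvPolynomial (Fin 1) R) (f : MvPolynomial (Fin M) R) (a : ℕ)
    (b : Fin M →₀ ℕ) :
    coeff (Finsupp.cons a b) (ext g f) = coeff (Finsupp.single 0 a) g * coeff b f := by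
  classical
  induction g using MvPolynomial.induction_on' with
  | monomial s c =>
    induction f using MvPolynomial.induction_on' with
    | monomial t d =>
      rw [ext_monomial, coeff_monomial, coeff_monomial, coeff_monomial]
      by_cases h1 : s 0 = a
      · by_cases h2 : t = b
        · rw [if_pos (by rw [h1, h2]), if_pos ((Ext_single s a).2 h1), if_pos h2]
        · rw [if_neg, if_neg h2, mul_zero]
          intro h3
          exact h2 (Finsupp.cons_injective2 h3).2
      · rw [if_neg, if_neg, zero_mul]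
        · exact fun h3 => h1 ((Ext_single s a).1 h3)
        · exact fun h3 => h1 (Finsupp.cons_injective2 h3).1
    | add P Q hP hQ => rw [ext_add_right, coeff_add, coeff_add, hP, hQ, mul_add]
  | add P Q hP hQ => rw [ext_add_left, coeff_add, coeff_add, hP, hQ, add_mul]

/-- `coeff_hD`, `coeff_ext` (every exponent of `Fin (M+1)` is `Finsupp.cons (j 0) j.tail`,
`Finsupp.cons_tail`; `Fin.prod_univ_succ`) or on monomials -/
theorem hD_ext (g : MvPolynomial (Fin 1) R) (f : MvPolynomial (Fin M) R) (a : ℕ)
    (b : Fin M →₀ ℕ) :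
    hD (Finsupp.cons a b) (ext g f) = ext (hD (Finsupp.single 0 a) g) (hD b f) := by
  induction g using MvPolynomial.induction_on' with
  | monomial s c =>
    induction f using MvPolynomial.induction_on' with
    | monomial t d =>
      rw [ext_monomial, hD_monomial, hD_monomial, hD_monomial, ext_monomial, Ext_sub,
        Finsupp.tsub_apply, Finsupp.single_eq_same, Fin.prod_univ_succ, Fin.prod_univ_one]
      simp only [Finsupp.cons_zero, Finsupp.cons_succ, Finsupp.single_eq_same]
      congr 1
      ring
    | add P Q hP hQ => rw [ext_add_right, map_add, map_add, ext_add_right, hP, hQ]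
  | add P Q hP hQ => rw [ext_add_left, map_add, map_add, ext_add_left, hP, hQ]

theorem Ext_sh {σ τ : Type*} (e : σ → τ) (x : τ → R) (y : σ → R) (h : ∀ s, x (e s) = y s)
    (g : MvPolynomial σ R) : sh x (rename e g) = rename e (sh y g) := by
  induction g using MvPolynomial.induction_on with
  | C a => rw [rename_C, Sh_C, Sh_C, rename_C]
  | add p q hp hq => simp only [map_add, hp, hq]
  | mul_X p n hp => simp only [map_mul, map_add, hp, Sh_X, rename_X, rename_C, h]

/-- both are ring homomorphisms in `g` and `f` -/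
theorem sh_ext (g : MvPolynomial (Fin 1) R) (f : MvPolynomial (Fin M) R) (x : Fin (M + 1) → R) :
    sh x (ext g f) = ext (sh (fun _ => x 0) g) (sh (fun h => x h.succ) f) := by
  unfold ext
  rw [map_mul, Ext_sh (fun _ : Fin 1 => (0 : Fin (M + 1))) x (fun _ => x 0) (fun _ => rfl),
    Ext_sh Fin.succ x (fun h => x h.succ) (fun _ => rfl)]

/-- `rename_injective` -/
theorem ext_ne_zero [IsDomain R] {g : MvPolynomial (Fin 1) R} {f : MvPolynomial (Fin M) R}
    (hg : g ≠ 0) (hf : f ≠ 0) : ext g f ≠ 0 := by
  have hinj : Function.Injective (fun _ : Fin 1 => (0 : Fin (M + 1))) := fun a b _ =>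
    Subsingleton.elim a b
  unfold ext
  refine mul_ne_zero (fun h => hg ?_) (fun h => hf ?_)
  · exact rename_injective _ hinj (by rw [h, map_zero])
  · exact rename_injective _ (Fin.succ_injective M) (by rw [h, map_zero])

/-- the matrix is the product of `B' = B` renamed and the transpose of `A` renamed:
`Matrix.det_mul`, `Matrix.det_transpose`, `RingHom.map_det` -/
theorem det_ext {l : ℕ} (A : Matrix (Fin l) (Fin l) (MvPolynomial (Fin 1) R))
    (B : Matrix (Fin l) (Fin l) (MvPolynomial (Fin M) R)) :
    (Matrix.of fun μ ν => ∑ j, ext (A ν j) (B μ j)).det = ext A.det B.det := by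
  have h1 : (Matrix.of fun μ ν => ∑ j, ext (A ν j) (B μ j)) =
      (B.map (rename Fin.succ : MvPolynomial (Fin M) R →ₐ[R] MvPolynomial (Fin (M + 1)) R)) *
      (A.map (rename (fun _ => 0) :
        MvPolynomial (Fin 1) R →ₐ[R] MvPolynomial (Fin (M + 1)) R)).transpose := by
    refine Matrix.ext fun μ ν => ?_
    rw [Matrix.of_apply, Matrix.mul_apply]
    refine Finset.sum_congr rfl fun j _ => ?_
    rw [Matrix.map_apply, Matrix.transpose_apply, Matrix.map_apply]
    unfold ext
    rw [mul_comm]
  rw [h1, Matrix.det_mul, Matrix.det_transpose]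
  unfold ext
  rw [AlgHom.map_det, AlgHom.map_det, mul_comm]
  rfl

end

end W156h39
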