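import Pool.Agent.W_156d3b_h39.Ext

/-!
# Integral factors
-/

set_option autoImplicit false

namespace W156h39

open MvPolynomial Finset

variable {M : ℕ}

theorem Factor_L1 {σ τ : Type*} (P : MvPolynomial τ ℤ) (W : MvPolynomial σ ℤ)
    (f : (τ →₀ ℕ) → (σ →₀ ℕ)) (hf : Function.Injective f)
    (h : ∀ i, coeff i P = coeff (f i) W) : L1 P ≤ L1 W := by
  classical
  unfold L1
  have h1 : ∑ i ∈ P.support, (P.coeff i).natAbs =
      ∑ j ∈ P.support.image f, (W.coeff j).natAbs := by
    rw [Finset.sum_image fun a _ b _ hab => hf hab]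
    exact Finset.sum_congr rfl fun i _ => by rw [h i]
  rw [h1]
  refine Finset.sum_le_sum_of_subset fun j hj => ?_
  obtain ⟨i, hi, rfl⟩ := Finset.mem_image.1 hj
  rw [mem_support_iff, ← h i]
  exact mem_support_iff.1 hi

theorem Factor_single (i : Fin 1 →₀ ℕ) : Finsupp.single 0 (i 0) = i := by
  refine Finsupp.ext fun j => ?_
  rw [Subsingleton.elim j 0, Finsupp.single_eq_same]

theorem Factor_sh_C {σ : Type*} (x : σ → ℚ) (c : ℚ) (P : MvPolynomial σ ℚ) :
    sh x (C c * P) = C c * sh x P := by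
  rw [map_mul]
  congr 1
  unfold sh
  rw [aeval_C]
  rfl

/-- PROOF. Coefficients: the coefficient `cons a b` of `W` is `coeff (single 0 a) v * coeff b u` in ℚ (`coeff_ext`,
`coeff_map`).  `W ≠ 0`, so choose `a0, b0` with `coeff (cons a0 b0) W ≠ 0`.
`U = ∑ b, monomial b (coeff (cons a0 b) W)` (a finite sum; e.g. the coefficient `a0` of `finSuccEquiv W`) and
`V = ∑ a, monomial (single 0 a) (coeff (cons a b0) W)`.  Over ℚ: `map U = C v_{a0} * u`,
`map V = C u_{b0} * v` with `v_{a0}, u_{b0} ≠ 0`.  The lengths are at most `L1 W` because the coefficients of `U`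
(of `V`) are among those of `W`.  Last property: over ℚ, `map_sh`, `sh_ext`, `coeff_ext`:
`coeff (cons a b) (sh x W) = coeff a (sh v) * coeff b (sh u)`, both factors nonzero. -/
theorem exists_factor (W : MvPolynomial (Fin (M + 1)) ℤ) (hW : W ≠ 0)
    (v : MvPolynomial (Fin 1) ℚ) (u : MvPolynomial (Fin M) ℚ)
    (h : map (Int.castRingHom ℚ) W = ext v u) :
    ∃ (V : MvPolynomial (Fin 1) ℤ) (U : MvPolynomial (Fin M) ℤ), V ≠ 0 ∧ U ≠ 0 ∧
      L1 V ≤ L1 W ∧ L1 U ≤ L1 W ∧ (∀ s, degreeOf s U ≤ degreeOf s.succ W) ∧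
      ∀ (x : Fin (M + 1) → ℤ) (a : ℕ) (b : Fin M →₀ ℕ),
        coeff (Finsupp.single 0 a) (sh (fun _ => x 0) V) ≠ 0 →
        coeff b (sh (fun s => x s.succ) U) ≠ 0 → coeff (Finsupp.cons a b) (sh x W) ≠ 0 := by
  classical
  obtain ⟨m0, hm0⟩ := ne_zero_iff.1 hW
  obtain ⟨a0, b0, hab⟩ : ∃ a0 b0, coeff (Finsupp.cons a0 b0) W ≠ 0 :=
    ⟨m0 0, m0.tail, by rwa [Finsupp.cons_tail]⟩
  have hcoef : ∀ a b, ((coeff (Finsupp.cons a b) W : ℤ) : ℚ) =
      coeff (Finsupp.single 0 a) v * coeff b u := by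
    intro a b
    rw [← coeff_ext, ← h, coeff_map]
    rfl
  obtain ⟨U, hU⟩ : ∃ U : MvPolynomial (Fin M) ℤ,
      U = Polynomial.coeff (finSuccEquiv ℤ M W) a0 := ⟨_, rfl⟩
  have hUc : ∀ b, coeff b U = coeff (Finsupp.cons a0 b) W := by
    intro b
    rw [hU, finSuccEquiv_coeff_coeff]
  obtain ⟨V, hV⟩ : ∃ V : MvPolynomial (Fin 1) ℤ, V = ∑ a ∈ Finset.range (degreeOf 0 W + 1),
      monomial (Finsupp.single 0 a) (coeff (Finsupp.cons a b0) W) := ⟨_, rfl⟩
  have hVc : ∀ a, coeff (Finsupp.single 0 a) V = coeff (Finsupp.cons a b0) W := by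
    intro a
    rw [hV, coeff_sum]
    have h1 : ∀ a' ∈ Finset.range (degreeOf 0 W + 1),
        coeff (Finsupp.single (0 : Fin 1) a)
          (monomial (Finsupp.single 0 a') (coeff (Finsupp.cons a' b0) W)) =
        if a' = a then coeff (Finsupp.cons a b0) W else 0 := by
      intro a' _
      rw [coeff_monomial]
      by_cases h2 : a' = a
      · rw [if_pos (by rw [h2]), if_pos h2, h2]
      · rw [if_neg, if_neg h2]
        intro h3
        apply h2
        have := DFunLike.congr_fun h3 0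
        simpa using this
    rw [Finset.sum_congr rfl h1, Finset.sum_ite_eq']
    split_ifs with h2
    · rfl
    · by_contra h3
      apply h2
      rw [Finset.mem_range]
      have h4 := monomial_le_degreeOf 0 (mem_support_iff.2 (Ne.symm h3))
      rw [Finsupp.cons_zero] at h4
      omega
  have hVc' : ∀ i, coeff i V = coeff (Finsupp.cons (i 0) b0) W := by
    intro i
    rw [← hVc, Factor_single]
  refine ⟨V, U, ?_, ?_, ?_, ?_, ?_, ?_⟩
  · intro h0
    apply hab
    rw [← hVc a0, h0, coeff_zero]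
  · intro h0
    apply hab
    rw [← hUc b0, h0, coeff_zero]
  · refine Factor_L1 V W (fun i => Finsupp.cons (i 0) b0) ?_ hVc'
    intro i j hij
    have := DFunLike.congr_fun hij 0
    simp only [Finsupp.cons_zero] at this
    rw [← Factor_single i, ← Factor_single j, this]
  · refine Factor_L1 U W (fun b => Finsupp.cons a0 b) ?_ hUc
    intro b c hbc
    have := congrArg Finsupp.tail hbc
    simpa only [Finsupp.tail_cons] using this
  · intro s
    rw [hU]
    exact degreeOf_coeff_finSuccEquiv W s a0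
  · intro x a b hVa hUb hW0
    have e1 : ((coeff (Finsupp.cons a b) (sh x W) : ℤ) : ℚ) =
        coeff (Finsupp.single 0 a) (sh (fun _ => (x 0 : ℚ)) v) *
          coeff b (sh (fun s => (x s.succ : ℚ)) u) := by
      rw [← coeff_ext, ← sh_ext v u (fun s => (x s : ℚ)), ← h]
      have := map_sh (Int.castRingHom ℚ) x W
      have h2 := congrArg (coeff (Finsupp.cons a b)) this
      rw [coeff_map] at h2
      exact h2
    rw [hW0, Int.cast_zero] at e1
    have e2 : map (Int.castRingHom ℚ) V = C (coeff b0 u) * v := by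
      refine MvPolynomial.ext _ _ fun i => ?_
      rw [coeff_map, coeff_C_mul, hVc' i, mul_comm, eq_intCast, hcoef, Factor_single]
    have e3 : map (Int.castRingHom ℚ) U = C (coeff (Finsupp.single 0 a0) v) * u := by
      refine MvPolynomial.ext _ _ fun i => ?_
      rw [coeff_map, coeff_C_mul, hUc i, eq_intCast, hcoef]
    have e4 : ((coeff (Finsupp.single 0 a) (sh (fun _ => x 0) V) : ℤ) : ℚ) =
        coeff b0 u * coeff (Finsupp.single 0 a) (sh (fun _ => (x 0 : ℚ)) v) := by
      rw [← coeff_C_mul, ← Factor_sh_C, ← e2]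
      have := congrArg (coeff (Finsupp.single 0 a)) (map_sh (Int.castRingHom ℚ) (fun _ => x 0) V)
      rw [coeff_map] at this
      exact this
    have e5 : ((coeff b (sh (fun s => x s.succ) U) : ℤ) : ℚ) =
        coeff (Finsupp.single 0 a0) v * coeff b (sh (fun s => (x s.succ : ℚ)) u) := by
      rw [← coeff_C_mul, ← Factor_sh_C, ← e3]
      have := congrArg (coeff b) (map_sh (Int.castRingHom ℚ) (fun s => x s.succ) U)
      rw [coeff_map] at this
      exact this
    have e6 : coeff (Finsupp.single 0 a) (sh (fun _ => (x 0 : ℚ)) v) ≠ 0 := by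
      intro h0
      rw [h0, mul_zero] at e4
      exact hVa (by exact_mod_cast e4)
    have e7 : coeff b (sh (fun s => (x s.succ : ℚ)) u) ≠ 0 := by
      intro h0
      rw [h0, mul_zero] at e5
      exact hUb (by exact_mod_cast e5)
    exact mul_ne_zero e6 e7 e1.symm

end W156h39
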