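import Pool.Agent.W_156d3b_h46.DBound2
import Pool.Agent.W_156d3b_h46.Padic
import Pool.Agent.W_156d3b_h46.Sizes

/-!
# Sizes and valuations for the solutions of `n! = m! k!`

`Sur46.Sol k m d`: `2 ≤ k < m`, `(m + d)! = m! k!`.
-/

set_option autoImplicit false

namespace W156h39

open Finset Nat Sur46

/-- `∑_{p ≤ y} log p / (p - 1)` is unbounded: `log p / (p - 1) ≥ 1 / p` and `∑ 1/p` diverges
(`Nat.Primes.not_summable_one_div` / `not_summable_one_div_on_primes`). -/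
theorem exists_primes (A : ℝ) : ∃ S : Finset ℕ, (∀ p ∈ S, p.Prime) ∧
    A < ∑ p ∈ S, Real.log p / (p - 1) := by
  by_contra hcon
  push Not at hcon
  refine Nat.Primes.not_summable_one_div (summable_of_sum_le (c := A) (fun p => by positivity)
    fun u => ?_)
  have h1 := hcon (u.map ⟨fun p : Nat.Primes => (p : ℕ), fun a b h => Subtype.ext h⟩) (by
    intro p hp
    obtain ⟨q, _, rfl⟩ := Finset.mem_map.1 hp
    exact q.2)
  refine le_trans ?_ h1
  rw [Finset.sum_map]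
  refine Finset.sum_le_sum fun p _ => ?_
  show 1 / ((p : ℕ) : ℝ) ≤ Real.log ((p : ℕ) : ℝ) / (((p : ℕ) : ℝ) - 1)
  have hp : (1 : ℝ) < ((p : ℕ) : ℝ) := by exact_mod_cast p.2.one_lt
  have hp0 : (0 : ℝ) < ((p : ℕ) : ℝ) := by linarith
  have h2 := Real.one_sub_inv_le_log_of_pos hp0
  rw [le_div_iff₀ (by linarith)]
  refine le_trans (le_of_eq ?_) h2
  field_simp

/-- `(log_2 k + 1)^2 = o(k)`. -/
theorem Sizes_log (δ : ℝ) (hδ : 0 < δ) : ∃ K0 : ℕ, ∀ k ≥ K0,
    ((Nat.log 2 k : ℝ) + 1) ^ 2 ≤ δ * k := by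
  have h1 := (Real.isLittleO_pow_log_id_atTop (n := 2)).bound (show 0 < δ / 9 by positivity)
  have h2 := tendsto_natCast_atTop_atTop (R := ℝ) |>.eventually h1
  obtain ⟨K, hK⟩ := Filter.eventually_atTop.1 h2
  refine ⟨max K 3, fun k hk => ?_⟩
  have hk3 : 3 ≤ k := le_trans (le_max_right _ _) hk
  have h3 := hK k (le_trans (le_max_left _ _) hk)
  have hk3' : (3 : ℝ) ≤ k := by exact_mod_cast hk3
  have hl1 : 1 ≤ Real.log k := by
    rw [Real.le_log_iff_exp_le (by linarith)]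
    linarith [Real.exp_one_lt_d9]
  rw [Real.norm_of_nonneg (by positivity), id, Real.norm_of_nonneg (by positivity)] at h3
  have h4 : (Nat.log 2 k : ℝ) ≤ Real.log k / Real.log 2 := by
    have := Real.natLog_le_logb k 2
    simpa [Real.logb] using this
  have h5 : Real.log k / Real.log 2 ≤ 2 * Real.log k := by
    rw [div_le_iff₀ (Real.log_pos (by norm_num))]
    nlinarith [Real.log_two_gt_d9]
  have h6 : (Nat.log 2 k : ℝ) + 1 ≤ 3 * Real.log k := by linarith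
  have h7 : ((Nat.log 2 k : ℝ) + 1) ^ 2 ≤ (3 * Real.log k) ^ 2 :=
    pow_le_pow_left₀ (by positivity) h6 2
  nlinarith

/-- Legendre. -/
theorem Sizes_val (p : ℕ) (hp : p.Prime) (k : ℕ) (hk : 1 ≤ k) :
    (k : ℝ) / (p - 1) - (Nat.log 2 k + 1) ≤ ((k !).factorization p : ℝ) := by
  haveI : Fact p.Prime := ⟨hp⟩
  have h1 := sub_one_mul_padicValNat_factorial (p := p) k
  have hp2 : 2 ≤ p := hp.two_le
  have h2 : (p.digits k).sum ≤ (p - 1) * (Nat.log 2 k + 1) := by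
    have h3 : (p.digits k).sum ≤ (p.digits k).length * (p - 1) := by
      have := List.sum_le_card_nsmul (p.digits k) (p - 1) fun x hx => by
        have := Nat.digits_lt_base hp.one_lt hx
        omega
      simpa [smul_eq_mul] using this
    have h4 : (p.digits k).length = Nat.log p k + 1 := Nat.digits_len p k hp.one_lt (by omega)
    have h5 : Nat.log p k ≤ Nat.log 2 k := Nat.log_anti_left (by norm_num) hp2
    rw [h4] at h3
    refine h3.trans ?_
    rw [mul_comm]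
    exact Nat.mul_le_mul_left _ (by omega)
  have h6 : k ≤ (p - 1) * padicValNat p (k !) + (p - 1) * (Nat.log 2 k + 1) := by omega
  have h7 : ((p - 1 : ℕ) : ℝ) = (p : ℝ) - 1 := by
    rw [Nat.cast_sub (by omega)]; simp
  have h8 : (k : ℝ) ≤ ((p : ℝ) - 1) * (padicValNat p (k !) : ℝ) + ((p : ℝ) - 1) *
      ((Nat.log 2 k : ℝ) + 1) := by
    rw [← h7]
    exact_mod_cast h6
  have hp1 : (0 : ℝ) < (p : ℝ) - 1 := by
    have : (2 : ℝ) ≤ p := by exact_mod_cast hp2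
    linarith
  rw [Nat.factorization_def _ hp, sub_le_iff_le_add, div_le_iff₀ hp1]
  linarith

/-- For a fixed prime `p` and `0 < c < 1`, large `k` and every solution: some `m + i`, `1 ≤ i ≤ d`, is divisible
by `p ^ e` with `e ≥ c k / (p - 1)`.
PROOF. `Sol.padic` with `e + (d-1)^2 ≤ v_p(k!)`: `p ^ (v_p(k!)) ∣ (m + i) * ((d-1)!)^(d-1)` and
`v_p (((d-1)!)^(d-1)) ≤ (d-1)^2` (`(p-1) v_p(N!) ≤ N`), so `p ^ (v_p(k!) - (d-1)^2) ∣ m + i`.  Legendre
(`sub_one_mul_padicValNat_factorial`): `(p - 1) v_p(k!) = k - digit sum ≥ k - p (Nat.log p k + 1)`, and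
`d ≤ 4 (Nat.log 2 k + 1)` (`d_bound2`).  Everything subtracted is `O((log k)^2)`. -/
theorem exists_pow_dvd (p : ℕ) (hp : p.Prime) (c : ℝ) (hc0 : 0 < c) (hc1 : c < 1) :
    ∃ K0 : ℕ, ∀ k ≥ K0, ∀ m d : ℕ, Sol k m d → ∃ i, 1 ≤ i ∧ i ≤ d ∧
      ∃ e : ℕ, c * k / (p - 1) ≤ e ∧ p ^ e ∣ m + i := by
  have hp2 : (2 : ℝ) ≤ p := by exact_mod_cast hp.two_le
  have hp1 : (0 : ℝ) < (p : ℝ) - 1 := by linarith
  obtain ⟨K1, hK1⟩ := d_bound2
  obtain ⟨K2, hK2⟩ := Sizes_log ((1 - c) / (17 * (p - 1))) (by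
    have : 0 < 1 - c := by linarith
    positivity)
  refine ⟨max K1 K2, fun k hk m d hS => ?_⟩
  have hd := hK1 k (le_trans (le_max_left _ _) hk) m d hS
  have hl := hK2 k (le_trans (le_max_right _ _) hk)
  have hk2 : 2 ≤ k := hS.1
  obtain ⟨i, hi1, hid, hdv⟩ := hS.padic hp
  refine ⟨i, hi1, hid, (m + i).factorization p, ?_, Nat.ordProj_dvd _ _⟩
  have hfne : (d - 1)! ≠ 0 := Nat.factorial_ne_zero _
  have hne : (m + i) * ((d - 1)!) ^ (d - 1) ≠ 0 := mul_ne_zero (by omega) (pow_ne_zero _ hfne)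
  have h1 := (hp.pow_dvd_iff_le_factorization hne).1 (hdv _ (Nat.ordProj_dvd (k !) p))
  rw [Nat.factorization_mul (by omega) (pow_ne_zero _ hfne), Nat.factorization_pow] at h1
  simp only [Finsupp.coe_add, Finsupp.coe_smul, Pi.add_apply, Pi.smul_apply, smul_eq_mul] at h1
  have h2 : ((d - 1)!).factorization p ≤ d - 1 := by
    haveI : Fact p.Prime := ⟨hp⟩
    have h3 := sub_one_mul_padicValNat_factorial (p := p) (d - 1)
    rw [Nat.factorization_def _ hp]
    have h4 : padicValNat p ((d - 1)!) ≤ (p - 1) * padicValNat p ((d - 1)!) :=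
      Nat.le_mul_of_pos_left _ (by have := hp.two_le; omega)
    omega
  have h3 : (d - 1) * ((d - 1)!).factorization p ≤ 16 * (Nat.log 2 k + 1) ^ 2 := by
    calc (d - 1) * ((d - 1)!).factorization p
        ≤ (4 * (Nat.log 2 k + 1)) * (4 * (Nat.log 2 k + 1)) :=
          Nat.mul_le_mul (by omega) (h2.trans (by omega))
      _ = 16 * (Nat.log 2 k + 1) ^ 2 := by ring
  have h4 : (k !).factorization p ≤ (m + i).factorization p + 16 * (Nat.log 2 k + 1) ^ 2 := by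
    omega
  have h5 : ((k !).factorization p : ℝ) ≤
      ((m + i).factorization p : ℝ) + 16 * ((Nat.log 2 k : ℝ) + 1) ^ 2 := by
    exact_mod_cast h4
  have h6 := Sizes_val p hp k (by omega)
  have h7 : (Nat.log 2 k : ℝ) + 1 ≤ ((Nat.log 2 k : ℝ) + 1) ^ 2 := by
    have : (0 : ℝ) ≤ Nat.log 2 k := Nat.cast_nonneg _
    nlinarith
  have h8 : 17 * ((1 - c) / (17 * ((p : ℝ) - 1)) * k) = (k : ℝ) / (p - 1) - c * k / (p - 1) := by
    field_simp
  linarith

/-- `m ≥ 2 ^ (k/4)`-type lower bound: `log m ≥ k / 8` for large `k`.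
PROOF. `exists_pow_dvd` for `p = 2`, `c = 1/2`: `2 ^ (k/2) ≤ m + d` and `d ≤ 4 (log_2 k + 1)`. -/
theorem log_m_ge : ∃ K0 : ℕ, ∀ k ≥ K0, ∀ m d : ℕ, Sol k m d → (k : ℝ) / 8 ≤ Real.log m := by
  obtain ⟨K, hK⟩ := exists_pow_dvd 2 Nat.prime_two (1 / 2) (by norm_num) (by norm_num)
  refine ⟨max K 4, fun k hk m d hS => ?_⟩
  obtain ⟨i, hi1, hid, e, he, hdv⟩ := hK k (le_trans (le_max_left _ _) hk) m d hS
  have hk4 : 4 ≤ k := le_trans (le_max_right _ _) hk
  have hdk := hS.d_pos_lt.2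
  have hkm := hS.2.1
  have h1 : 2 ^ e ≤ m + i := Nat.le_of_dvd (by omega) hdv
  have h2 : (2 : ℝ) ^ e ≤ 2 * m := by
    have : 2 ^ e ≤ 2 * m := by omega
    exact_mod_cast this
  have hm : (0 : ℝ) < m := by
    have : 0 < m := by omega
    exact_mod_cast this
  have h3 : e * Real.log 2 ≤ Real.log 2 + Real.log m := by
    rw [← Real.log_pow, ← Real.log_mul (by norm_num) hm.ne']
    exact Real.log_le_log (by positivity) h2
  have h4 : (k : ℝ) / 2 ≤ e := by
    have h5 : (1 / 2 : ℝ) * k / ((2 : ℕ) - 1) = k / 2 := by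
      push_cast
      ring
    rw [← h5]
    exact he
  have hk4' : (4 : ℝ) ≤ k := by exact_mod_cast hk4
  nlinarith [Real.log_two_gt_d9]

/-- For every `η > 0`, large `k`: `d ≤ m ^ η` (`d ≤ 4 (log_2 k + 1)`, `log m ≥ k/8`). -/
theorem d_le_rpow (η : ℝ) (hη : 0 < η) : ∃ K0 : ℕ, ∀ k ≥ K0, ∀ m d : ℕ, Sol k m d →
    (d : ℝ) ≤ (m : ℝ) ^ η := by
  obtain ⟨K1, hK1⟩ := d_bound2
  obtain ⟨K2, hK2⟩ := log_m_ge
  obtain ⟨K3, hK3⟩ := Sizes_log (η / 32) (by positivity)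
  refine ⟨max K1 (max K2 K3), fun k hk m d hS => ?_⟩
  have hd := hK1 k (le_trans (le_max_left _ _) hk) m d hS
  have hm := hK2 k (le_trans (le_trans (le_max_left _ _) (le_max_right _ _)) hk) m d hS
  have hl := hK3 k (le_trans (le_trans (le_max_right _ _) (le_max_right _ _)) hk)
  have hm0 : (0 : ℝ) < m := by
    have : 0 < m := lt_of_le_of_lt (Nat.zero_le _) hS.2.1
    exact_mod_cast this
  have h1 : (d : ℝ) ≤ 4 * ((Nat.log 2 k : ℝ) + 1) := by exact_mod_cast hd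
  have h7 : (Nat.log 2 k : ℝ) + 1 ≤ ((Nat.log 2 k : ℝ) + 1) ^ 2 := by
    have : (0 : ℝ) ≤ Nat.log 2 k := Nat.cast_nonneg _
    nlinarith
  rw [Real.rpow_def_of_pos hm0]
  have h2 := Real.add_one_le_exp (Real.log m * η)
  have h3 : (k : ℝ) / 8 * η ≤ Real.log m * η := mul_le_mul_of_nonneg_right hm hη.le
  linarith

/-- For every `ε > 0`, large `k`: if `ε log log (m + d) ≤ d` then `log m ≤ (8/ε) k`.
PROOF. `(m + 1)^d ≤ k! ≤ k^k` (`Sol.pow_le`), so `d log m ≤ k log k`.  By `log_m_ge`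
`log log (m + d) ≥ log (k/8) ≥ (log k)/2`, so `d ≥ (ε/2) log k` and
`log m ≤ k log k / d ≤ (2/ε) k`. -/
theorem log_m_le (ε : ℝ) (hε : 0 < ε) : ∃ K0 : ℕ, ∀ k ≥ K0, ∀ m d : ℕ, Sol k m d →
    ε * Real.log (Real.log (m + d : ℕ)) ≤ d → Real.log m ≤ 8 / ε * k := by
  obtain ⟨K1, hK1⟩ := log_m_ge
  refine ⟨max K1 64, fun k hk m d hS h => ?_⟩
  have hm := hK1 k (le_trans (le_max_left _ _) hk) m d hS
  have hk64 : 64 ≤ k := le_trans (le_max_right _ _) hk
  have hk' : (64 : ℝ) ≤ k := by exact_mod_cast hk64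
  have hm0 : (1 : ℝ) ≤ m := by
    have : 1 ≤ m := by have := hS.2.1; omega
    exact_mod_cast this
  have hlk : 0 < Real.log k := Real.log_pos (by linarith)
  have h1 : (d : ℝ) * Real.log m ≤ k * Real.log k := by
    have h2 : (m + 1) ^ d ≤ k ^ k := hS.pow_le.trans (Nat.factorial_le_pow k)
    have h3 : (((m : ℝ) + 1)) ^ d ≤ (k : ℝ) ^ k := by exact_mod_cast h2
    have h4 := Real.log_le_log (by positivity) h3
    rw [Real.log_pow, Real.log_pow] at h4
    have h5 : Real.log m ≤ Real.log (m + 1) := Real.log_le_log (by linarith) (by linarith)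
    have h6 : (d : ℝ) * Real.log m ≤ d * Real.log (m + 1) :=
      mul_le_mul_of_nonneg_left h5 (Nat.cast_nonneg _)
    linarith
  have h2 : Real.log k / 2 ≤ Real.log (Real.log ((m + d : ℕ) : ℝ)) := by
    have h3 : (k : ℝ) / 8 ≤ Real.log ((m + d : ℕ) : ℝ) := by
      refine hm.trans (Real.log_le_log (by linarith) ?_)
      push_cast
      linarith [(Nat.cast_nonneg d : (0 : ℝ) ≤ d)]
    have h4 : Real.log ((k : ℝ) / 8) ≤ Real.log (Real.log ((m + d : ℕ) : ℝ)) :=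
      Real.log_le_log (by linarith) h3
    refine le_trans ?_ h4
    have h5 : Real.log k ≤ 2 * Real.log ((k : ℝ) / 8) := by
      have h6 : (2 : ℝ) * Real.log ((k : ℝ) / 8) = Real.log (((k : ℝ) / 8) ^ 2) := by
        rw [Real.log_pow]; norm_num
      rw [h6]
      refine Real.log_le_log (by linarith) ?_
      nlinarith
    linarith
  have h3 : ε * (Real.log k / 2) ≤ d := (mul_le_mul_of_nonneg_left h2 hε.le).trans h
  have hlm : 0 ≤ Real.log m := Real.log_nonneg hm0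
  have h4 : ε * (Real.log k / 2) * Real.log m ≤ k * Real.log k :=
    (mul_le_mul_of_nonneg_right h3 hlm).trans h1
  have h5 : ε * Real.log m ≤ 2 * k := by
    have h6 : (ε * Real.log m) * Real.log k ≤ (2 * k) * Real.log k := by linarith
    exact le_of_mul_le_mul_right h6 hlk
  rw [div_mul_eq_mul_div, le_div_iff₀ hε]
  nlinarith

end W156h39
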