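import Pool.Agent.W_156d3b_h39.Ridout
import Pool.Agent.W_156d3b_h39.Sizes

/-!
# Final theorem: n - m = o(log log n)
-/

set_option autoImplicit false

namespace W156h39

open Finset Nat Sur46

/-- finitely many solutions with bounded `k` -/
theorem Final_small (K : ℕ) : {t : ℕ × ℕ × ℕ | Sol t.1 t.2.1 t.2.2 ∧ t.1 < K}.Finite := by
  refine Set.Finite.subset ((Set.finite_Iio K).prod ((Set.finite_Iic (K !)).prod
    (Set.finite_Iic K))) ?_
  rintro ⟨k, m, d⟩ ⟨h, hk⟩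
  have hd : 1 ≤ d ∧ d < k := h.d_pos_lt
  have h1 : (m + 1) ^ d ≤ k ! := h.pow_le
  have hk' : k < K := hk
  refine ⟨hk, ?_, ?_⟩
  · change m ≤ (K !)
    calc m ≤ (m + 1) ^ 1 := by rw [pow_one]; omega
      _ ≤ (m + 1) ^ d := Nat.pow_le_pow_right (by omega) hd.1
      _ ≤ k ! := h1
      _ ≤ K ! := Nat.factorial_le hk'.le
  · change d ≤ K
    have := hd.2
    omega

/-- For every `C` only finitely many solutions satisfy `log m ≤ C k`. -/
theorem finite_of_log_le (C : ℝ) (hC : 0 < C) :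
    {t : ℕ × ℕ × ℕ | Sol t.1 t.2.1 t.2.2 ∧ Real.log t.2.1 ≤ C * t.1}.Finite := by
  obtain ⟨S, hS, hsum⟩ := exists_primes (40 * C)
  have hp1 : ∀ p ∈ S, (0 : ℝ) < (p : ℝ) - 1 := fun p hp => by
    have h1 : (2 : ℝ) ≤ p := by exact_mod_cast (hS p hp).two_le
    linarith
  obtain ⟨η, hη, hfin⟩ := ridout S hS (fun p => 1 / (2 * C * ((p : ℝ) - 1)))
    (fun p hp => by
      have := hp1 p hp
      positivity) (by
      have h1 : ∑ p ∈ S, 1 / (2 * C * ((p : ℝ) - 1)) * Real.log p =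
          1 / (2 * C) * ∑ p ∈ S, Real.log p / ((p : ℝ) - 1) := by
        rw [Finset.mul_sum]
        refine Finset.sum_congr rfl fun p hp => ?_
        have := (hp1 p hp).ne'
        field_simp
      rw [h1]
      have h2 : (20 : ℝ) = 1 / (2 * C) * (40 * C) := by
        field_simp
        norm_num
      rw [h2]
      exact mul_lt_mul_of_pos_left hsum (by positivity))
  -- thresholds
  obtain ⟨K1, hK1⟩ := d_le_rpow η hη
  have hK2 : ∀ p : ℕ, ∃ K0 : ℕ, p ∈ S → ∀ k ≥ K0, ∀ m d : ℕ, Sol k m d → ∃ i, 1 ≤ i ∧ i ≤ d ∧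
      ∃ e : ℕ, 1 / 2 * (k : ℝ) / ((p : ℝ) - 1) ≤ e ∧ p ^ e ∣ m + i := by
    intro p
    by_cases hp : p ∈ S
    · obtain ⟨K0, h0⟩ := exists_pow_dvd p (hS p hp) (1 / 2) (by norm_num) (by norm_num)
      exact ⟨K0, fun _ => h0⟩
    · exact ⟨0, fun h => absurd h hp⟩
  choose K2 hK2 using hK2
  set K := max K1 (S.sup K2) with hK
  have hmem : ∀ k m d : ℕ, Sol k m d → K ≤ k → Real.log m ≤ C * k →
      m ∈ {x : ℕ | ∃ a : ℕ → ℕ, ∀ p ∈ S, (a p : ℝ) ≤ (x : ℝ) ^ η ∧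
      ∃ e : ℕ, 1 / (2 * C * ((p : ℝ) - 1)) * Real.log x ≤ e ∧ p ^ e ∣ x + a p} := by
    intro k m d hsol hk hlog
    have h1 : ∀ p : ℕ, ∃ i : ℕ, p ∈ S → (i ≤ d ∧
      ∃ e : ℕ, 1 / 2 * (k : ℝ) / ((p : ℝ) - 1) ≤ e ∧ p ^ e ∣ m + i) := by
      intro p
      by_cases hp : p ∈ S
      · obtain ⟨i, _, h3, h4⟩ := hK2 p hp k ((Finset.le_sup hp).trans ((le_max_right _ _).trans hk))
          m d hsol
        exact ⟨i, fun _ => ⟨h3, h4⟩⟩
      · exact ⟨0, fun h => absurd h hp⟩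
    choose a ha using h1
    refine ⟨a, fun p hp => ?_⟩
    obtain ⟨h2, e, h3, h4⟩ := ha p hp
    refine ⟨?_, e, le_trans ?_ h3, h4⟩
    · refine le_trans ?_ (hK1 k ((le_max_left _ _).trans hk) m d hsol)
      exact_mod_cast h2
    · have h5 := hp1 p hp
      have h6 : 1 / (2 * C * ((p : ℝ) - 1)) * Real.log m ≤
          1 / (2 * C * ((p : ℝ) - 1)) * (C * k) := mul_le_mul_of_nonneg_left hlog (by positivity)
      refine h6.trans (le_of_eq ?_)
      field_simp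
  -- the large solutions
  have hlarge : {t : ℕ × ℕ × ℕ | Sol t.1 t.2.1 t.2.2 ∧ Real.log t.2.1 ≤ C * t.1 ∧ K ≤ t.1}.Finite := by
    obtain ⟨B, hB⟩ := hfin.bddAbove
    refine Set.Finite.subset ((Set.finite_Iic B).prod ((Set.finite_Iic B).prod
      (Set.finite_Iic B))) ?_
    rintro ⟨k, m, d⟩ ⟨hsol, hlog, hk⟩
    have h1 : m ≤ B := hB (hmem k m d hsol hk hlog)
    have h2 : k < m := hsol.2.1
    have h3 := hsol.d_pos_lt
    have h4 : d < k := h3.2
    exact ⟨(show k ≤ B by omega), (show m ≤ B from h1), (show d ≤ B by omega)⟩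
  refine (hlarge.union (Final_small K)).subset ?_
  rintro ⟨k, m, d⟩ ⟨hsol, hlog⟩
  rcases le_or_gt K k with h | h
  · exact Or.inl ⟨hsol, hlog, h⟩
  · exact Or.inr ⟨hsol, h⟩

/-- `n - m = o(log log n)`. -/
theorem main (ε : ℝ) (hε : 0 < ε) :
    {t : ℕ × ℕ × ℕ | 2 ≤ t.2.2 ∧ t.2.2 < t.2.1 ∧ t.1 ! = t.2.1 ! * t.2.2 ! ∧
      ε * Real.log (Real.log t.1) ≤ (t.1 : ℝ) - t.2.1}.Finite := by
  obtain ⟨K0, hK0⟩ := log_m_le ε hε
  have hfin := (finite_of_log_le (8 / ε) (by positivity)).union (Final_small K0)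
  refine Set.Finite.subset (hfin.image fun t : ℕ × ℕ × ℕ => (t.2.1 + t.2.2, t.2.1, t.1)) ?_
  rintro ⟨n, m, k⟩ ⟨hk, hkm, hf, hlog⟩
  change n ! = m ! * k ! at hf
  change ε * Real.log (Real.log n) ≤ (n : ℝ) - m at hlog
  change 2 ≤ k at hk
  change k < m at hkm
  have hmn : m ≤ n := by
    by_contra hlt
    have h1 : n ! < m ! ∨ n ! = m ! := by
      rcases Nat.eq_zero_or_pos n with h | h
      · subst h
        have h2 : 0 ! = 1 := rfl
        rw [h2] at hf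
        have h3 : m ! * k ! ≠ 1 := by
          intro h4
          have h5 := Nat.eq_one_of_mul_eq_one_left h4
          have h6 := Nat.factorial_eq_one.1 h5
          omega
        exact absurd hf.symm h3
      · exact Or.inl (Nat.factorial_lt h |>.2 (not_le.1 hlt))
    have h7 : m ! ≤ n ! := by
      rw [hf]
      exact Nat.le_mul_of_pos_right _ (Nat.factorial_pos k)
    rcases h1 with h1 | h1
    · omega
    · rw [h1] at hf
      have h8 : k ! = 1 := by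
        have h9 : m ! * 1 = m ! * k ! := by rw [mul_one]; exact hf
        exact (Nat.eq_of_mul_eq_mul_left (Nat.factorial_pos m) h9).symm
      have := Nat.factorial_eq_one.1 h8
      omega
  obtain ⟨d, rfl⟩ : ∃ d, n = m + d := ⟨n - m, by omega⟩
  have hsol : Sol k m d := ⟨hk, hkm, hf⟩
  have hd : ε * Real.log (Real.log (m + d : ℕ)) ≤ d := by
    have h1 : ((m + d : ℕ) : ℝ) - m = d := by push_cast; ring
    rw [h1] at hlog
    exact hlog
  refine ⟨(k, m, d), ?_, rfl⟩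
  rcases le_or_gt K0 k with h | h
  · exact Or.inl ⟨hsol, hK0 k h m d hsol hd⟩
  · exact Or.inr ⟨hsol, h⟩

end W156h39
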