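import Pool.Agent.W_156d3b_h39.Ratio

/-!
# Generalised Wronskians
-/

set_option autoImplicit false

namespace W156h39

open MvPolynomial Finset

variable {σ : Type*} [Fintype σ] [DecidableEq σ]

/-- the cofactors of the last row -/
noncomputable def GWlam {l : ℕ} (I : Fin l → (σ →₀ ℕ)) (f : Fin (l + 1) → MvPolynomial σ ℚ)
    (j : Fin (l + 1)) : MvPolynomial σ ℚ :=
  (-1) ^ (l + (j : ℕ)) * (Matrix.of fun μ ν : Fin l => hD (I μ) (f (j.succAbove ν))).det

omit [DecidableEq σ] in
lemma GW_expand {l : ℕ} (I : Fin l → (σ →₀ ℕ)) (K : σ →₀ ℕ)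
    (f : Fin (l + 1) → MvPolynomial σ ℚ) :
    (Matrix.of fun (μ j : Fin (l + 1)) =>
      hD ((Fin.snoc I K : Fin (l + 1) → (σ →₀ ℕ)) μ) (f j)).det =
      ∑ j, GWlam I f j * hD K (f j) := by
  rw [Matrix.det_succ_row _ (Fin.last l)]
  refine sum_congr rfl fun j _ => ?_
  have h1 : (Matrix.of fun (μ j : Fin (l + 1)) =>
      hD ((Fin.snoc I K : Fin (l + 1) → (σ →₀ ℕ)) μ) (f j)).submatrix (Fin.last l).succAbove
        j.succAbove = Matrix.of fun μ ν : Fin l => hD (I μ) (f (j.succAbove ν)) := by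
    ext1 μ ν
    simp only [Matrix.submatrix_apply, Matrix.of_apply, Fin.succAbove_last, Fin.snoc_castSucc]
  rw [h1, Matrix.of_apply, Fin.snoc_last, Fin.val_last, GWlam]
  ring

omit [DecidableEq σ] in
lemma GW_last {l : ℕ} (I : Fin l → (σ →₀ ℕ)) (f : Fin (l + 1) → MvPolynomial σ ℚ) :
    GWlam I f (Fin.last l) = (Matrix.of fun μ ν : Fin l => hD (I μ) (f ν.castSucc)).det := by
  unfold GWlam
  rw [Fin.val_last, ← two_mul, pow_mul]
  simp only [even_two, Even.neg_pow, one_pow, one_mul, Fin.succAbove_last]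

lemma GW_step {l : ℕ} (f : Fin (l + 1) → MvPolynomial σ ℚ) (hf : LinearIndependent ℚ f)
    (I : Fin l → (σ →₀ ℕ)) (hI : ∀ μ : Fin l, (∑ h, I μ h) ≤ μ)
    (hd : (Matrix.of fun μ ν : Fin l => hD (I μ) (f ν.castSucc)).det ≠ 0)
    (hR : ∀ K : σ →₀ ℕ, ∑ h, K h ≤ l → ∑ j, GWlam I f j * hD K (f j) = 0) : False := by
  have hlast := GW_last I f
  set lam := GWlam I f with hlam
  have hl0 : lam (Fin.last l) ≠ 0 := by
    rw [hlast]
    exact hd
  -- derivative of the relation for `I μ`
  have h1 : ∀ (μ : Fin l) (s : σ), ∑ j, pderiv s (lam j) * hD (I μ) (f j) = 0 := by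
    intro μ s
    have hμ := μ.isLt
    have e1 : ∑ h, I μ h ≤ l := le_trans (hI μ) hμ.le
    have e2 : ∑ h, (I μ + Finsupp.single s 1 : σ →₀ ℕ) h ≤ l := by
      have e3 : ∑ h, (I μ + Finsupp.single s 1 : σ →₀ ℕ) h = ∑ h, I μ h + 1 := by
        have e7 : ∑ h, (Finsupp.single s 1 : σ →₀ ℕ) h = 1 := by simp [Finsupp.single_apply]
        simp only [Finsupp.add_apply]
        rw [sum_add_distrib, e7]
      have := hI μ
      omega
    have e4 := congrArg (pderiv s) (hR _ e1)
    rw [map_sum, map_zero] at e4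
    have e5 := hR _ e2
    have e6 : ∑ j, pderiv s (lam j * hD (I μ) (f j)) =
        ∑ j, pderiv s (lam j) * hD (I μ) (f j) +
        C ((((I μ) s + 1 : ℕ) : ℚ)) *
          ∑ j, lam j * hD (I μ + Finsupp.single s 1) (f j) := by
      rw [mul_sum, ← sum_add_distrib]
      refine sum_congr rfl fun j _ => ?_
      rw [Derivation.leibniz, pderiv_hD, smul_eq_mul, smul_eq_mul]
      ring
    rw [e6, e5, mul_zero, add_zero] at e4
    exact e4
  -- the vector `ρ` vanishes
  have h2 : ∀ (s : σ) (j : Fin (l + 1)),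
      lam (Fin.last l) * pderiv s (lam j) = lam j * pderiv s (lam (Fin.last l)) := by
    intro s
    have e1 : (fun j : Fin l => lam (Fin.last l) * pderiv s (lam j.castSucc) -
        lam j.castSucc * pderiv s (lam (Fin.last l))) = 0 := by
      refine Matrix.eq_zero_of_mulVec_eq_zero hd ?_
      funext μ
      rw [Matrix.mulVec, dotProduct, Pi.zero_apply]
      simp only [Matrix.of_apply]
      have e2 := h1 μ s
      have e3 := hR _ (le_trans (hI μ) μ.isLt.le)
      rw [Fin.sum_univ_castSucc] at e2 e3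
      have e4 : ∑ j : Fin l, hD (I μ) (f j.castSucc) *
          (lam (Fin.last l) * pderiv s (lam j.castSucc) -
            lam j.castSucc * pderiv s (lam (Fin.last l))) =
          lam (Fin.last l) * ∑ j : Fin l, pderiv s (lam j.castSucc) * hD (I μ) (f j.castSucc) -
          pderiv s (lam (Fin.last l)) * ∑ j : Fin l, lam j.castSucc * hD (I μ) (f j.castSucc) := by
        rw [mul_sum, mul_sum, ← sum_sub_distrib]
        refine sum_congr rfl fun j _ => ?_
        ring
      rw [e4]
      linear_combination lam (Fin.last l) * e2 - pderiv s (lam (Fin.last l)) * e3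
    intro j
    refine Fin.lastCases ?_ (fun j => ?_) j
    · rfl
    · have := congrFun e1 j
      simp only [Pi.zero_apply] at this
      exact sub_eq_zero.1 this
  have h3 : ∀ j, ∃ c : ℚ, lam j = C c * lam (Fin.last l) := fun j =>
    ratio _ _ hl0 fun s => h2 s j
  choose c hc using h3
  have h4 : c (Fin.last l) = 1 := by
    have e1 := hc (Fin.last l)
    have e2 : (C (c (Fin.last l)) - 1) * lam (Fin.last l) = 0 := by
      linear_combination -e1
    rcases mul_eq_zero.1 e2 with h | h
    · rw [sub_eq_zero, ← C_1] at h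
      exact C_injective _ _ h
    · exact absurd h hl0
  have h5 := hR 0 (by simp)
  have h6 : ∑ j, lam j * hD 0 (f j) = lam (Fin.last l) * ∑ j, c j • f j := by
    rw [mul_sum]
    refine sum_congr rfl fun j _ => ?_
    rw [hD_zero, smul_eq_C_mul]
    conv_lhs => rw [hc j]
    ring
  rw [h6] at h5
  have h7 : ∑ j, c j • f j = 0 := by
    rcases mul_eq_zero.1 h5 with h | h
    · exact absurd h hl0
    · exact h
  have h8 := Fintype.linearIndependent_iff.1 hf c h7 (Fin.last l)
  rw [h4] at h8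
  exact one_ne_zero h8

/-- Generalised Wronskians.
PROOF. Induction on `l`; `l = 0` clear.  `l + 1`: by induction there are `I_0, ..., I_{l-1}` for
`f ∘ Fin.castSucc` with nonzero determinant `Δ`.  Suppose that for all `I` with `∑ h, I h ≤ l` the
determinant with rows `I_0, ..., I_{l-1}, I` (`Fin.snoc`) vanishes.  Expanding along the last row
(`Matrix.det_succ_row` for `Fin.last`) gives `∑ j, λ_j * hD I (f j) = 0` for these `I`, where `λ_j` is the
cofactor (independent of `I`), `λ_last = Δ`.  In particular for `I = I_μ` and for `I = I_μ + e_s`.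
Apply `pderiv s` to the relation for `I_μ` and use `pderiv_hD` and the relation for `I_μ + e_s`:
`∑ j, (∂_s λ_j) * hD I_μ (f j) = 0`.  Put `ρ_j = λ_last ∂_s λ_j - λ_j ∂_s λ_last`: `ρ_last = 0` and
`∑_{j<l} ρ_j hD I_μ (f j) = 0` for all `μ < l`, so `ρ = 0` as `Δ ≠ 0`
(`Matrix.eq_zero_of_mulVec_eq_zero`).  By `ratio`, `λ_j = c_j λ_last`.  The relation for `I = 0`
(`hD_zero`) gives `λ_last * ∑ c_j f_j = 0`, so `∑ c_j f_j = 0` with `c_last = 1`: contradiction to linear
independence. -/
theorem gw (l : ℕ) (f : Fin l → MvPolynomial σ ℚ) (hf : LinearIndependent ℚ f) :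
    ∃ I : Fin l → (σ →₀ ℕ), (∀ μ : Fin l, (∑ h, I μ h) ≤ μ) ∧
      (Matrix.of fun μ j => hD (I μ) (f j)).det ≠ 0 := by
  induction l with
  | zero => exact ⟨fun i => i.elim0, fun i => i.elim0, by simp⟩
  | succ l ih =>
    obtain ⟨I, hI, hd⟩ := ih (fun j => f j.castSucc)
      (hf.comp Fin.castSucc (Fin.castSucc_injective l))
    by_contra hcon
    push Not at hcon
    refine GW_step f hf I hI hd fun K hK => ?_
    rw [← GW_expand]
    refine hcon (Fin.snoc I K) fun μ => ?_
    refine Fin.lastCases ?_ (fun μ => ?_) μ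
    · rw [Fin.snoc_last, Fin.val_last]
      exact hK
    · rw [Fin.snoc_castSucc, Fin.val_castSucc]
      exact hI μ

end W156h39
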