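import Pool.Agent.W_156d3b_h39.Defs

/-!
# Hasse derivatives

All statements are checked on coefficients or monomials (`MvPolynomial.induction_on'`,
`basisMonomials`, `MvPolynomial.ext`).
-/

set_option autoImplicit false

namespace W156h39

open MvPolynomial Finset

variable {σ : Type*} [Fintype σ] {R : Type*} [CommRing R]

/-- from the definition (`Module.Basis.constr_basis`), linearity in `c` -/
theorem hD_monomial (I j : σ →₀ ℕ) (c : R) :
    hD I (monomial j c) = monomial (j - I) (c * ∏ h, (((j h).choose (I h) : ℕ) : R)) := by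
  have h1 : monomial j c = c • (basisMonomials σ R j) := by
    rw [coe_basisMonomials, smul_monomial, smul_eq_mul, mul_one]
  rw [h1, map_smul, hD, Module.Basis.constr_basis, smul_monomial, smul_eq_mul]

/-- By linearity for `P = monomial k c`.  If `k = j + I` both sides are `c * ∏ choose`.  If `k ≠ j + I`
the right side is 0; on the left `k - I = j` is possible only if `I ≤ k` fails, and then some
`choose` is 0. -/
theorem coeff_hD (I j : σ →₀ ℕ) (P : MvPolynomial σ R) :
    coeff j (hD I P) = (∏ h, (((j h + I h).choose (I h) : ℕ) : R)) * coeff (j + I) P := by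
  classical
  induction P using MvPolynomial.induction_on' with
  | monomial k c =>
    rw [hD_monomial, coeff_monomial, coeff_monomial]
    by_cases h1 : k = j + I
    · rw [if_pos h1, h1, add_tsub_cancel_right, if_pos rfl, mul_comm]
      rfl
    · rw [if_neg h1, mul_zero]
      split_ifs with h2
      · have h3 : ∃ h, k h < I h := by
          by_contra hcon
          push Not at hcon
          apply h1
          rw [← h2]
          exact (tsub_add_cancel_of_le (show I ≤ k from hcon)).symm
        obtain ⟨h, hh⟩ := h3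
        rw [Finset.prod_eq_zero (Finset.mem_univ h), mul_zero]
        rw [Nat.choose_eq_zero_of_lt hh, Nat.cast_zero]
      · rfl
  | add P Q hP hQ => rw [map_add, coeff_add, coeff_add, hP, hQ, mul_add]

/-- `coeff_hD` -/
theorem hD_zero (P : MvPolynomial σ R) : hD 0 P = P := by
  ext j
  rw [coeff_hD]
  simp

/-- `coeff_hD`, `coeff_map` -/
theorem map_hD {S : Type*} [CommRing S] (φ : R →+* S) (I : σ →₀ ℕ) (P : MvPolynomial σ R) :
    map φ (hD I P) = hD I (map φ P) := by
  ext j
  rw [coeff_map, coeff_hD, coeff_hD, coeff_map, map_mul, map_prod]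
  simp only [map_natCast]

theorem HD_coeff_ne {I j : σ →₀ ℕ} {P : MvPolynomial σ R} (h : coeff j (hD I P) ≠ 0) :
    coeff (j + I) P ≠ 0 := by
  rw [coeff_hD] at h
  exact right_ne_zero_of_mul h

/-- `coeff_hD`: if `j` is in the support of `hD I P` then `j + I` is in the support of `P`
(`degreeOf_eq_sup`, `Finset.sup_le`) -/
theorem degreeOf_hD (s : σ) (I : σ →₀ ℕ) (P : MvPolynomial σ R) :
    degreeOf s (hD I P) ≤ degreeOf s P := by
  rw [degreeOf_le_iff]
  intro m hm
  have h1 := HD_coeff_ne (mem_support_iff.1 hm)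
  have h2 := degreeOf_le_iff.1 (le_refl (degreeOf s P)) _ (mem_support_iff.2 h1)
  rw [Finsupp.add_apply] at h2
  omega

/-- on monomials: (I s + 1) * k.choose (I s + 1) = (k - I s) * k.choose (I s)
(`Nat.succ_mul_choose_eq`-like, `Nat.choose_succ_right_eq`) -/
theorem pderiv_hD [DecidableEq σ] (s : σ) (I : σ →₀ ℕ) (P : MvPolynomial σ R) :
    pderiv s (hD I P) = C (((I s + 1 : ℕ) : R)) * hD (I + Finsupp.single s 1) P := by
  induction P using MvPolynomial.induction_on' with
  | monomial k c =>
    rw [hD_monomial, hD_monomial, pderiv_monomial, C_mul_monomial, tsub_tsub]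
    congr 1
    rw [Finsupp.tsub_apply, ← Finset.mul_prod_erase _ _ (Finset.mem_univ s),
      ← Finset.mul_prod_erase _ _ (Finset.mem_univ s)]
    have h1 : ∏ h ∈ Finset.univ.erase s,
        (((k h).choose ((I + Finsupp.single s 1 : σ →₀ ℕ) h) : ℕ) : R) =
        ∏ h ∈ Finset.univ.erase s, (((k h).choose (I h) : ℕ) : R) := by
      refine Finset.prod_congr rfl fun h hh => ?_
      rw [Finsupp.add_apply, Finsupp.single_eq_of_ne (Finset.ne_of_mem_erase hh), add_zero]
    have h2 : (I + Finsupp.single s 1 : σ →₀ ℕ) s = I s + 1 := by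
      rw [Finsupp.add_apply, Finsupp.single_eq_same]
    have h3 : (((k s).choose (I s + 1) : ℕ) : R) * ((I s + 1 : ℕ) : R) =
        (((k s).choose (I s) : ℕ) : R) * ((k s - I s : ℕ) : R) := by
      rw [← Nat.cast_mul, ← Nat.cast_mul, Nat.choose_succ_right_eq]
    rw [h1, h2]
    linear_combination (-(c * ∏ h ∈ Finset.univ.erase s, (((k h).choose (I h) : ℕ) : R))) * h3
  | add P Q hP hQ => rw [map_add, map_add, map_add, hP, hQ, mul_add]

/-- `coeff_hD`; `wt` is additive -/
theorem OrdGe_hD {r : σ → ℕ} {τ : ℝ} {P : MvPolynomial σ R} (h : OrdGe r τ P) (I : σ →₀ ℕ) :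
    OrdGe r (τ - wt r I) (hD I P) := by
  intro i hi
  have h1 := h _ (HD_coeff_ne hi)
  have h2 : wt r (i + I) = wt r i + wt r I := by
    unfold wt
    rw [← Finset.sum_add_distrib]
    refine Finset.sum_congr rfl fun h _ => ?_
    rw [Finsupp.add_apply]
    push_cast
    ring
  linarith

/-- The support of `hD I P` is contained in the image of the support of `P` under `k ↦ k - I`, and
for `k` in the support `k h ≤ r h`, so `∏ h, (k h).choose (I h) ≤ ∏ h, 2 ^ (r h)`
(`Nat.choose_le_two_pow`).  With `L1 P = ∑ over any finset containing the support`, use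
`Finset.sum_le_sum` after the injection `j ↦ j + I` of the support of `hD I P` into that of `P`. -/
theorem L1_hD (r : σ → ℕ) (P : MvPolynomial σ ℤ) (hr : ∀ h, degreeOf h P ≤ r h) (I : σ →₀ ℕ) :
    L1 (hD I P) ≤ 2 ^ (∑ h, r h) * L1 P := by
  classical
  unfold L1
  have h1 : ∀ i ∈ (hD I P).support, ((hD I P).coeff i).natAbs ≤
      2 ^ (∑ h, r h) * ((P.coeff (i + I)).natAbs) := by
    intro i hi
    have hne := HD_coeff_ne (mem_support_iff.1 hi)
    rw [coeff_hD, Int.natAbs_mul]
    refine Nat.mul_le_mul_right _ ?_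
    rw [← Nat.cast_prod, Int.natAbs_natCast, ← Finset.prod_pow_eq_pow_sum]
    refine Finset.prod_le_prod' fun h _ => ?_
    have h2 := degreeOf_le_iff.1 (hr h) _ (mem_support_iff.2 hne)
    rw [Finsupp.add_apply] at h2
    exact (Nat.choose_le_two_pow _ _).trans (Nat.pow_le_pow_right (by norm_num) h2)
  refine (Finset.sum_le_sum h1).trans ?_
  rw [← Finset.mul_sum]
  refine Nat.mul_le_mul_left _ ?_
  have h2 : ∑ i ∈ (hD I P).support, (P.coeff (i + I)).natAbs =
      ∑ k ∈ (hD I P).support.map (addRightEmbedding I), (P.coeff k).natAbs := by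
    rw [Finset.sum_map]
    rfl
  rw [h2]
  refine Finset.sum_le_sum_of_subset fun k hk => ?_
  obtain ⟨i, hi, rfl⟩ := Finset.mem_map.1 hk
  exact mem_support_iff.2 (HD_coeff_ne (mem_support_iff.1 hi))

end W156h39
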