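import Pool.Agent.W_156d3b_h39.Sh

/-!
# The length `L1` (sum of the absolute values of the coefficients)
-/

set_option autoImplicit false

namespace W156h39

open MvPolynomial Finset

section

variable {σ : Type*}

theorem natAbs_coeff_le (P : MvPolynomial σ ℤ) (i : σ →₀ ℕ) : (P.coeff i).natAbs ≤ L1 P := by
  classical
  by_cases h : i ∈ P.support
  · exact Finset.single_le_sum (f := fun i => (P.coeff i).natAbs) (fun _ _ => Nat.zero_le _) h
  · rw [notMem_support_iff.1 h]
    exact Nat.zero_le _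

theorem one_le_L1 {P : MvPolynomial σ ℤ} (hP : P ≠ 0) : 1 ≤ L1 P := by
  obtain ⟨i, hi⟩ := ne_zero_iff.1 hP
  refine le_trans ?_ (natAbs_coeff_le P i)
  exact Nat.one_le_iff_ne_zero.2 (Int.natAbs_ne_zero.2 hi)

/-- `L1 P = ∑` over any finset containing the support -/
theorem L1_eq_sum (P : MvPolynomial σ ℤ) (s : Finset (σ →₀ ℕ)) (hs : P.support ⊆ s) :
    L1 P = ∑ i ∈ s, (P.coeff i).natAbs := by
  refine Finset.sum_subset hs fun i _ hi => ?_
  rw [notMem_support_iff.1 hi]
  rfl

theorem L1_add (P Q : MvPolynomial σ ℤ) : L1 (P + Q) ≤ L1 P + L1 Q := by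
  classical
  rw [L1_eq_sum (P + Q) (P.support ∪ Q.support) support_add,
    L1_eq_sum P (P.support ∪ Q.support) Finset.subset_union_left,
    L1_eq_sum Q (P.support ∪ Q.support) Finset.subset_union_right, ← Finset.sum_add_distrib]
  refine Finset.sum_le_sum fun i _ => ?_
  rw [coeff_add]
  exact Int.natAbs_add_le _ _

theorem Len_sum {ι : Type*} (s : Finset ι) (f : ι → MvPolynomial σ ℤ) :
    L1 (∑ i ∈ s, f i) ≤ ∑ i ∈ s, L1 (f i) := by
  classical
  induction s using Finset.induction_on with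
  | empty =>
    rw [Finset.sum_empty, Finset.sum_empty, L1, support_zero, Finset.sum_empty]
  | insert i s his ih =>
    rw [Finset.sum_insert his, Finset.sum_insert his]
    exact (L1_add _ _).trans (Nat.add_le_add_left ih _)

theorem Len_mono (i : σ →₀ ℕ) (c : ℤ) (Q : MvPolynomial σ ℤ) :
    L1 (monomial i c * Q) ≤ c.natAbs * L1 Q := by
  classical
  have hsub : (monomial i c * Q).support ⊆ Q.support.image (fun j => i + j) := by
    intro n hn
    rw [mem_support_iff, coeff_monomial_mul'] at hn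
    have h1 : i ≤ n := by
      by_contra h
      rw [if_neg h] at hn
      exact hn rfl
    rw [if_pos h1] at hn
    refine Finset.mem_image.2 ⟨n - i, ?_, add_tsub_cancel_of_le h1⟩
    rw [mem_support_iff]
    exact right_ne_zero_of_mul hn
  rw [L1_eq_sum _ _ hsub, Finset.sum_image (fun a _ b _ h => add_left_cancel h), L1, Finset.mul_sum]
  refine Finset.sum_le_sum fun j _ => ?_
  rw [coeff_monomial_mul, Int.natAbs_mul]

theorem Len_one : L1 (1 : MvPolynomial σ ℤ) = 1 := by
  classical
  rw [L1_eq_sum (1 : MvPolynomial σ ℤ) {0}, Finset.sum_singleton, coeff_zero_one]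
  · rfl
  · intro n hn
    rw [mem_support_iff, coeff_one] at hn
    rw [Finset.mem_singleton]
    by_contra h
    exact hn (if_neg (fun h' => h h'.symm))

theorem Len_units (u : ℤˣ) (P : MvPolynomial σ ℤ) : L1 (u • P) = L1 P := by
  rcases Int.units_eq_one_or u with rfl | rfl
  · rw [one_smul]
  · rw [Units.neg_smul, one_smul, L1, L1, support_neg]
    refine Finset.sum_congr rfl fun i _ => ?_
    rw [coeff_neg, Int.natAbs_neg]

/-- `MvPolynomial.coeff_mul`; or write `P = ∑ monomial` and use `L1_add` and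
`L1 (monomial i c * Q) ≤ |c| L1 Q` -/
theorem L1_mul (P Q : MvPolynomial σ ℤ) : L1 (P * Q) ≤ L1 P * L1 Q := by
  classical
  have h1 : P * Q = ∑ i ∈ P.support, monomial i (P.coeff i) * Q := by
    rw [← Finset.sum_mul, support_sum_monomial_coeff]
  rw [h1]
  refine (Len_sum _ _).trans ?_
  rw [L1, Finset.sum_mul]
  exact Finset.sum_le_sum fun i _ => Len_mono i _ Q

theorem L1_sum {ι : Type*} (s : Finset ι) (f : ι → MvPolynomial σ ℤ) :
    L1 (∑ i ∈ s, f i) ≤ ∑ i ∈ s, L1 (f i) := by
  exact Len_sum s f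

theorem L1_prod {ι : Type*} (s : Finset ι) (f : ι → MvPolynomial σ ℤ) :
    L1 (∏ i ∈ s, f i) ≤ ∏ i ∈ s, L1 (f i) := by
  classical
  induction s using Finset.induction_on with
  | empty =>
    rw [Finset.prod_empty, Finset.prod_empty]
    exact Len_one.le
  | insert i s his ih =>
    rw [Finset.prod_insert his, Finset.prod_insert his]
    exact (L1_mul _ _).trans (Nat.mul_le_mul_left _ ih)

/-- `Matrix.det_apply`, `L1_sum`, `L1_prod`, `L1 (± P) = L1 P`, `Fintype.card_perm` -/
theorem L1_det {l : ℕ} (A : Matrix (Fin l) (Fin l) (MvPolynomial σ ℤ)) (B : ℕ)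
    (h : ∀ i j, L1 (A i j) ≤ B) : L1 A.det ≤ l.factorial * B ^ l := by
  rw [Matrix.det_apply]
  refine (L1_sum _ _).trans ?_
  calc ∑ τ : Equiv.Perm (Fin l), L1 (Equiv.Perm.sign τ • ∏ i, A (τ i) i)
      ≤ ∑ _τ : Equiv.Perm (Fin l), B ^ l := by
        refine Finset.sum_le_sum fun τ _ => ?_
        rw [Len_units]
        refine (L1_prod _ _).trans ?_
        calc ∏ i : Fin l, L1 (A (τ i) i) ≤ ∏ _i : Fin l, B :=
              Finset.prod_le_prod' fun i _ => h _ _
          _ = B ^ l := by rw [Finset.prod_const, Finset.card_univ, Fintype.card_fin]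
    _ = l.factorial * B ^ l := by
        rw [Finset.sum_const, Finset.card_univ, Fintype.card_perm, Fintype.card_fin, smul_eq_mul]

/-- `Matrix.det_apply`, `degreeOf_sum_le`, `degreeOf_prod_le` -/
theorem degreeOf_det {l : ℕ} {R : Type*} [CommRing R] (A : Matrix (Fin l) (Fin l) (MvPolynomial σ R))
    (s : σ) (r : ℕ) (h : ∀ i j, degreeOf s (A i j) ≤ r) : degreeOf s A.det ≤ l * r := by
  classical
  rw [Matrix.det_apply]
  refine (degreeOf_sum_le s _ _).trans ?_
  refine Finset.sup_le fun τ _ => ?_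
  have h1 : degreeOf s (Equiv.Perm.sign τ • ∏ i, A (τ i) i) ≤ degreeOf s (∏ i, A (τ i) i) := by
    rcases Int.units_eq_one_or (Equiv.Perm.sign τ) with hu | hu
    · rw [hu, one_smul]
    · rw [hu, Units.neg_smul, one_smul]
      have h2 : -(∏ i, A (τ i) i) = C (-1) * ∏ i, A (τ i) i := by
        rw [map_neg, C_1, neg_one_mul]
      rw [h2]
      exact degreeOf_C_mul_le _ _ _
  refine h1.trans ((degreeOf_prod_le s _ _).trans ?_)
  calc ∑ i : Fin l, degreeOf s (A (τ i) i) ≤ ∑ _i : Fin l, r :=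
        Finset.sum_le_sum fun i _ => h _ _
    _ = l * r := by rw [Finset.sum_const, Finset.card_univ, Fintype.card_fin, smul_eq_mul]

end

end W156h39
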