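import Pool.Agent.W_156d3b_h39.Len

/-!
# Sizes and divisibility of the coefficients of translates
-/

set_option autoImplicit false

namespace W156h39

open MvPolynomial Finset

variable {σ : Type*} [Fintype σ]

/-- `coeff_sh`: each choose is at most `2 ^ r h` and `x h ^ (j h - i h) ≤ x h ^ (r h)` -/
theorem natAbs_coeff_sh (r : σ → ℕ) (P : MvPolynomial σ ℤ) (hr : ∀ h, degreeOf h P ≤ r h)
    (x : σ → ℕ) (hx : ∀ h, 1 ≤ x h) (i : σ →₀ ℕ) :
    (coeff i (sh (fun h => (x h : ℤ)) P)).natAbs ≤ 2 ^ (∑ h, r h) * (∏ h, x h ^ r h) * L1 P := by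
  rw [coeff_sh]
  refine (Int.natAbs_sum_le _ _).trans ?_
  unfold L1
  rw [Finset.mul_sum]
  refine Finset.sum_le_sum fun j hj => ?_
  have h1 : (∏ h, ((((j h).choose (i h) : ℕ) : ℤ) * (x h : ℤ) ^ (j h - i h))) =
      ((∏ h, ((j h).choose (i h) * x h ^ (j h - i h)) : ℕ) : ℤ) := by
    push_cast
    rfl
  rw [h1, Int.natAbs_mul, Int.natAbs_natCast, mul_comm]
  refine Nat.mul_le_mul_right _ ?_
  rw [← Finset.prod_pow_eq_pow_sum, ← Finset.prod_mul_distrib]
  refine Finset.prod_le_prod' fun h _ => ?_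
  have h2 : j h ≤ r h := (monomial_le_degreeOf h hj).trans (hr h)
  refine Nat.mul_le_mul ?_ ?_
  · exact (Nat.choose_le_two_pow _ _).trans (Nat.pow_le_pow_right (by norm_num) h2)
  · exact Nat.pow_le_pow_right (hx h) ((Nat.sub_le _ _).trans h2)

/-- `coeff_sh`: a term `j` with `choose ≠ 0` has `i ≤ j`, `t = j - i` satisfies the hypothesis of `hE`
(`wt` is additive), and `∏ h, y h ^ (t h)` is divisible by `p ^ (∑ t h * e h)`. -/
theorem pow_dvd_coeff_sh (p : ℕ) (r : σ → ℕ) (Q : MvPolynomial σ ℤ) (θ : ℝ) (hQ : OrdGe r θ Q)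
    (y : σ → ℤ) (e : σ → ℕ) (hy : ∀ h, (p : ℤ) ^ (e h) ∣ y h) (i : σ →₀ ℕ) (E : ℕ)
    (hE : ∀ t : σ → ℕ, θ - wt r i ≤ ∑ h, (t h : ℝ) / r h → E ≤ ∑ h, t h * e h) :
    (p : ℤ) ^ E ∣ coeff i (sh y Q) := by
  rw [coeff_sh]
  refine Finset.dvd_sum fun j hj => ?_
  by_cases hij : ∀ h, i h ≤ j h
  · have h1 : θ ≤ wt r j := hQ j (mem_support_iff.1 hj)
    have h2 : E ≤ ∑ h, (j h - i h) * e h := by
      refine hE (fun h => j h - i h) ?_
      have h3 : ∑ h, (((j h - i h : ℕ) : ℝ)) / r h = wt r j - wt r i := by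
        unfold wt
        rw [← Finset.sum_sub_distrib]
        refine Finset.sum_congr rfl fun h _ => ?_
        rw [Nat.cast_sub (hij h), sub_div]
      rw [h3]
      linarith
    refine Dvd.dvd.mul_left ?_ _
    rw [Finset.prod_mul_distrib]
    refine Dvd.dvd.mul_left ?_ _
    refine (pow_dvd_pow (p : ℤ) h2).trans ?_
    rw [← Finset.prod_pow_eq_pow_sum]
    refine Finset.prod_dvd_prod_of_dvd _ _ fun h _ => ?_
    rw [mul_comm, pow_mul]
    exact pow_dvd_pow_of_dvd (hy h) _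
  · push Not at hij
    obtain ⟨h, hh⟩ := hij
    have h1 : ∏ h, ((((j h).choose (i h) : ℕ) : ℤ) * y h ^ (j h - i h)) = 0 := by
      refine Finset.prod_eq_zero (Finset.mem_univ h) ?_
      rw [Nat.choose_eq_zero_of_lt hh, Nat.cast_zero, zero_mul]
    rw [h1, mul_zero]
    exact dvd_zero _

end W156h39
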