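import Pool.Agent.W_156d3b_h39.Sh

/-!
# The index (order of vanishing at the origin with weights)
-/

set_option autoImplicit false

namespace W156h39

open MvPolynomial Finset

variable {σ : Type*} [Fintype σ] {R : Type*} [CommRing R]

theorem Ord_wt_nonneg (r : σ → ℕ) (i : σ →₀ ℕ) : 0 ≤ wt r i := by
  unfold wt
  positivity

theorem Ord_wt_add (r : σ → ℕ) (a b : σ →₀ ℕ) : wt r (a + b) = wt r a + wt r b := by
  unfold wt
  rw [← Finset.sum_add_distrib]
  refine Finset.sum_congr rfl fun h _ => ?_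
  rw [Finsupp.add_apply]
  push_cast
  ring

theorem OrdGe_zero (r : σ → ℕ) (P : MvPolynomial σ R) : OrdGe r 0 P :=
  fun i _ => Ord_wt_nonneg r i

theorem OrdGe_max {r : σ → ℕ} {τ τ' : ℝ} {P : MvPolynomial σ R} (h : OrdGe r τ P)
    (h' : OrdGe r τ' P) : OrdGe r (max τ τ') P :=
  fun i hi => max_le (h i hi) (h' i hi)

theorem OrdGe_mono {r : σ → ℕ} {τ τ' : ℝ} {P : MvPolynomial σ R} (h : OrdGe r τ P)
    (h' : τ' ≤ τ) : OrdGe r τ' P :=
  fun i hi => h'.trans (h i hi)

/-- `coeff_mul`: a nonzero coefficient has a nonzero term `coeff a P * coeff b Q`, `a + b = i` -/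
theorem OrdGe_mul {r : σ → ℕ} {τ τ' : ℝ} {P Q : MvPolynomial σ R} (h : OrdGe r τ P)
    (h' : OrdGe r τ' Q) : OrdGe r (τ + τ') (P * Q) := by
  classical
  intro i hi
  rw [coeff_mul] at hi
  obtain ⟨x, hx, hne⟩ := Finset.exists_ne_zero_of_sum_ne_zero hi
  rw [Finset.HasAntidiagonal.mem_antidiagonal] at hx
  rw [← hx, Ord_wt_add]
  exact add_le_add (h _ (left_ne_zero_of_mul hne)) (h' _ (right_ne_zero_of_mul hne))

theorem OrdGe_sum {ι : Type*} (s : Finset ι) {r : σ → ℕ} {τ : ℝ} {P : ι → MvPolynomial σ R}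
    (h : ∀ i ∈ s, OrdGe r τ (P i)) : OrdGe r τ (∑ i ∈ s, P i) := by
  intro i hi
  rw [coeff_sum] at hi
  obtain ⟨x, hx, hne⟩ := Finset.exists_ne_zero_of_sum_ne_zero hi
  exact h x hx i hne

theorem OrdGe_prod {ι : Type*} (s : Finset ι) {r : σ → ℕ} {τ : ι → ℝ} {P : ι → MvPolynomial σ R}
    (h : ∀ i ∈ s, OrdGe r (τ i) (P i)) : OrdGe r (∑ i ∈ s, τ i) (∏ i ∈ s, P i) := by
  classical
  induction s using Finset.induction_on with
  | empty =>
    rw [Finset.sum_empty]
    exact OrdGe_zero r _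
  | insert a s ha ih =>
    rw [Finset.sum_insert ha, Finset.prod_insert ha]
    exact OrdGe_mul (h a (Finset.mem_insert_self a s))
      (ih fun i hi => h i (Finset.mem_insert_of_mem hi))

/-- `Matrix.det_apply` (of the transpose, so that the product runs over the columns) -/
theorem OrdGe_det {l : ℕ} {r : σ → ℕ} (A : Matrix (Fin l) (Fin l) (MvPolynomial σ R))
    (t : Fin l → ℝ) (h : ∀ μ ν, OrdGe r (t ν) (A μ ν)) : OrdGe r (∑ ν, t ν) A.det := by
  rw [← Matrix.det_transpose, Matrix.det_apply']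
  refine OrdGe_sum _ fun π _ => ?_
  have h1 : OrdGe r (∑ i, t (π i)) (∏ i, Matrix.transpose A (π i) i) :=
    OrdGe_prod _ fun i _ => h i (π i)
  rw [Equiv.sum_comp π t] at h1
  have h2 := OrdGe_mul (OrdGe_zero r (((Equiv.Perm.sign π : ℤ) : MvPolynomial σ R))) h1
  rwa [zero_add] at h2

end W156h39
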