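import Pool.Agent.W_156d3b_h39.Sh

/-!
# Proportional polynomials
-/

set_option autoImplicit false

namespace W156h39

open MvPolynomial Finset

variable {σ : Type*} [Fintype σ] [DecidableEq σ]

omit [DecidableEq σ] in
/-- total degree of an exponent and the product formula for coefficients -/
lemma Ratio_key (A N : MvPolynomial σ ℚ) (hA : coeff 0 A ≠ 0) (hN : coeff 0 N = 0)
    (h : ∀ s, A * pderiv s N = N * pderiv s A) : N = 0 := by
  classical
  by_contra hN0
  have hne : N.support.Nonempty := by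
    rw [Finset.nonempty_iff_ne_empty]
    intro h'
    exact hN0 (support_eq_empty.1 h')
  obtain ⟨α, hα, hmin⟩ := exists_min_image N.support (fun α : σ →₀ ℕ => ∑ h, α h) hne
  have hα0 : α ≠ 0 := by
    rintro rfl
    exact (mem_support_iff.1 hα) hN
  obtain ⟨s, hs⟩ : ∃ s, α s ≠ 0 := by
    by_contra hcon
    push Not at hcon
    exact hα0 (Finsupp.ext hcon)
  set β : σ →₀ ℕ := α - Finsupp.single s 1 with hβ
  have hβα : β + Finsupp.single s 1 = α := by
    rw [hβ]
    refine tsub_add_cancel_of_le ?_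
    rw [Finsupp.single_le_iff]
    omega
  have hdeg : ∀ x y : σ →₀ ℕ, ∑ h, (x + y) h = ∑ h, x h + ∑ h, y h := by
    intro x y
    rw [← sum_add_distrib]
    rfl
  have hsing : ∑ h, (Finsupp.single s 1 : σ →₀ ℕ) h = 1 := by
    simp [Finsupp.single_apply]
  have hsmall : ∀ x : σ →₀ ℕ, ∑ h, x h < ∑ h, α h → coeff x N = 0 := by
    intro x hx
    by_contra hcon
    exact absurd (hmin x (mem_support_iff.2 hcon)) (not_le.2 hx)
  have hdα : ∑ h, α h = ∑ h, β h + 1 := by
    rw [← hβα, hdeg, hsing]
  have h1 := congrArg (coeff β) (h s)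
  rw [coeff_mul, coeff_mul] at h1
  have h2 : ∑ x ∈ antidiagonal β, coeff x.1 N * coeff x.2 (pderiv s A) = 0 := by
    refine sum_eq_zero fun x hx => ?_
    rw [HasAntidiagonal.mem_antidiagonal] at hx
    rw [hsmall x.1, zero_mul]
    have : ∑ h, β h = ∑ h, x.1 h + ∑ h, x.2 h := by rw [← hx, hdeg]
    omega
  have h3 : ∑ x ∈ antidiagonal β, coeff x.1 A * coeff x.2 (pderiv s N) =
      coeff 0 A * coeff β (pderiv s N) := by
    rw [sum_eq_single (0, β)]
    · intro x hx hx0
      rw [HasAntidiagonal.mem_antidiagonal] at hx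
      have hx1 : x.1 ≠ 0 := by
        intro h'
        apply hx0
        rw [h', zero_add] at hx
        exact Prod.ext h' hx
      have hpos : 0 < ∑ h, x.1 h := by
        rw [Nat.pos_iff_ne_zero]
        intro h'
        rw [sum_eq_zero_iff] at h'
        exact hx1 (Finsupp.ext fun i => h' i (mem_univ i))
      rw [coeff_pderiv, hsmall, zero_mul, mul_zero]
      have : ∑ h, β h = ∑ h, x.1 h + ∑ h, x.2 h := by rw [← hx, hdeg]
      rw [hdeg, hsing]
      omega
    · intro h'
      exfalso
      apply h'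
      rw [HasAntidiagonal.mem_antidiagonal, zero_add]
  rw [h2, h3, coeff_pderiv, hβα] at h1
  have h4 : coeff α N ≠ 0 := mem_support_iff.1 hα
  have h5 : ((β s : ℚ) + 1) ≠ 0 := by positivity
  exact (mul_ne_zero hA (mul_ne_zero h4 h5)) h1

/-- Two polynomials with `a ∂b = b ∂a` for all first derivatives are proportional.
PROOF. Choose `y` with `eval y a ≠ 0` (`MvPolynomial.funext`, ℚ infinite) and `c = eval y b / eval y a`,
`ν = b - C c * a`, so `a ∂ν = ν ∂a` and `eval y ν = 0`.  Apply `sh y` (`pderiv_sh`): let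
`A = sh y a`, `N = sh y ν`: `coeff 0 A = eval y a ≠ 0`, `coeff 0 N = 0`, `A ∂N = N ∂A`.  If `N ≠ 0` let `α` be in
the support of `N` with minimal total degree `q = ∑ h, α h`; `α ≠ 0`, so `α s > 0` for some `s`.  In
`A ∂_s N` the coefficient of `α - e_s` is `coeff 0 A * (α s) * coeff α N ≠ 0` (all exponents of `∂_s N` have
total degree `≥ q - 1`), in `N ∂_s A` it is 0 (all exponents of `N` have total degree `≥ q`).
Contradiction, so `N = 0`, `ν = 0` (`sh_ne_zero`). -/
theorem ratio (a b : MvPolynomial σ ℚ) (ha : a ≠ 0)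
    (h : ∀ s, a * pderiv s b = b * pderiv s a) : ∃ c : ℚ, b = C c * a := by
  obtain ⟨y, hy⟩ : ∃ y, eval y a ≠ 0 := by
    by_contra hcon
    push Not at hcon
    apply ha
    apply MvPolynomial.funext
    intro x
    rw [hcon, map_zero]
  set c : ℚ := eval y b / eval y a with hc
  refine ⟨c, ?_⟩
  set ν : MvPolynomial σ ℚ := b - C c * a with hν
  have h1 : ∀ s, a * pderiv s ν = ν * pderiv s a := by
    intro s
    rw [hν, map_sub, pderiv_C_mul, mul_sub, h s]
    ring
  have h2 : eval y ν = 0 := by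
    rw [hν, map_sub, map_mul, eval_C, hc]
    field_simp
    ring
  have hco : ∀ P : MvPolynomial σ ℚ, coeff 0 (sh y P) = eval y P := by
    intro P
    rw [coeff_sh_eq_eval, hD_zero]
  have h3 : sh y ν = 0 := by
    refine Ratio_key (sh y a) (sh y ν) ?_ ?_ fun s => ?_
    · rw [hco]
      exact hy
    · rw [hco]
      exact h2
    · rw [pderiv_sh, pderiv_sh, ← map_mul, ← map_mul, h1]
  have h4 : ν = 0 := by
    by_contra h'
    exact sh_ne_zero y h' h3
  rw [hν, sub_eq_zero] at h4
  exact h4

end W156h39
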