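import Pool.Agent.W_156d3b_h39.Roth
import Pool.Agent.W_156d3b_h39.Aux1

/-!
# A theorem of Ridout type for integer moving targets
-/

set_option autoImplicit false

namespace W156h39

open MvPolynomial Finset

/-- a sparse sequence in an infinite set of natural numbers -/
theorem Ridout_seq (X : Set ℕ) (hX : X.Infinite) (B c : ℝ) :
    ∃ y : ℕ → ℕ, (∀ j, y j ∈ X) ∧ (∀ j, B ≤ Real.log (y j)) ∧
      ∀ j, c * Real.log (y j) ≤ Real.log (y (j + 1)) := by
  have h1 : ∀ A : ℝ, ∃ x ∈ X, A ≤ Real.log x := by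
    intro A
    obtain ⟨x, hx, hlt⟩ := hX.exists_gt ⌈Real.exp A⌉₊
    refine ⟨x, hx, ?_⟩
    have h2 : Real.exp A ≤ x := (Nat.le_ceil _).trans (by exact_mod_cast hlt.le)
    exact (Real.le_log_iff_exp_le (lt_of_lt_of_le (Real.exp_pos _) h2)).2 h2
  choose f hfX hf using h1
  let y : ℕ → ℕ := fun j =>
    Nat.rec (motive := fun _ => ℕ) (f B) (fun _ z => f (max B (c * Real.log (z : ℝ)))) j
  have hy : ∀ j, y (j + 1) = f (max B (c * Real.log (y j : ℝ))) := fun j => rfl
  refine ⟨y, ?_, ?_, ?_⟩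
  · intro j
    cases j with
    | zero => exact hfX _
    | succ j => rw [hy]; exact hfX _
  · intro j
    cases j with
    | zero => exact hf _
    | succ j => rw [hy]; exact (le_max_left _ _).trans (hf _)
  · intro j
    rw [hy]
    exact (le_max_right _ _).trans (hf _)

theorem Ridout_gap (z : ℕ → ℝ) (c : ℝ) (hc : 1 ≤ c) (hz : ∀ j, 0 ≤ z j)
    (h : ∀ j, c * z j ≤ z (j + 1)) : (∀ i j, i ≤ j → z i ≤ z j) ∧ ∀ i j, i < j → c * z i ≤ z j := by
  have h1 : Monotone z := monotone_nat_of_le_succ fun j => by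
    have h2 := h j
    have h3 := hz j
    nlinarith
  refine ⟨fun i j hij => h1 hij, fun i j hij => (h i).trans (h1 (Nat.succ_le_of_lt hij))⟩

/-- If `∑ κ_p log p > 20` there are only finitely many `x` such that for all `p ∈ S` some integer
`x + a_p`, `0 ≤ a_p ≤ x^η`, is divisible by a power of `p` which is at least `x ^ (κ_p log p)`. -/
theorem ridout (S : Finset ℕ) (hS : ∀ p ∈ S, p.Prime) (κ : ℕ → ℝ) (hκ : ∀ p ∈ S, 0 ≤ κ p)
    (hsum : 20 < ∑ p ∈ S, κ p * Real.log p) :
    ∃ η : ℝ, 0 < η ∧ {x : ℕ | ∃ a : ℕ → ℕ, ∀ p ∈ S, (a p : ℝ) ≤ (x : ℝ) ^ η ∧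
      ∃ e : ℕ, κ p * Real.log x ≤ e ∧ p ^ e ∣ x + a p}.Finite := by
  have hne : S.Nonempty := by
    rcases S.eq_empty_or_nonempty with h | h
    · rw [h, Finset.sum_empty] at hsum
      linarith
    · exact h
  set s := S.card with hs
  have hs1 : 1 ≤ s := hne.card_pos
  obtain ⟨M, hM⟩ : ∃ M, M = 8 * s := ⟨_, rfl⟩
  have hM8 : 8 ≤ M := by omega
  have hMr : (8 : ℝ) ≤ M := by exact_mod_cast hM8
  obtain ⟨ω, hω0, hω1, H⟩ := roth_lemma M 1 one_pos le_rfl
  refine ⟨ω / (4 * M), by positivity, ?_⟩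
  set η := ω / (4 * M) with hη
  have hη0 : 0 < η := by positivity
  by_contra hinf
  obtain ⟨y, hyX, hyB, hyc⟩ := Ridout_seq _ hinf (12 * M / ω) (2 / ω)
  have hB0 : 0 < 12 * M / ω := by positivity
  have hlogpos : ∀ j, 0 < Real.log (y j) := fun j => lt_of_lt_of_le hB0 (hyB j)
  obtain ⟨hmono, hgap⟩ := Ridout_gap (fun j => Real.log (y j)) (2 / ω)
    (by rw [le_div_iff₀ hω0]; linarith) (fun j => (hlogpos j).le) hyc
  have hy1 : ∀ j, 1 ≤ y j := by
    intro j
    rcases Nat.eq_zero_or_pos (y j) with h | h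
    · have := hlogpos j
      rw [h] at this
      simp at this
    · exact h
  -- the data of the approximations
  choose a ha using hyX
  have ha1 : ∀ j, ∀ p ∈ S, (a j p : ℝ) ≤ (y j : ℝ) ^ η := fun j p hp => (ha j p hp).1
  have ha2 : ∀ j, ∀ p, ∃ e : ℕ, p ∈ S → κ p * Real.log (y j) ≤ e ∧ p ^ e ∣ y j + a j p := by
    intro j p
    by_cases hp : p ∈ S
    · obtain ⟨e, he⟩ := (ha j p hp).2
      exact ⟨e, fun _ => he⟩
    · exact ⟨0, fun h => absurd h hp⟩
  choose e he using ha2
  -- the points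
  let x : Fin M → ℕ := fun h => y (Fin.rev h : Fin M).val
  set T : ℝ := Real.log (y (M - 1)) with hT
  have hTpos : 0 < T := hlogpos _
  have hxT : ∀ h, Real.log (x h) ≤ T := fun h => hmono _ _ (by have := (Fin.rev h).2; omega)
  have hxpos : ∀ h, 0 < Real.log (x h) := fun h => hlogpos _
  have hxB : ∀ h, 12 * M / ω ≤ Real.log (x h) := fun h => hyB _
  let r : Fin M → ℕ := fun h => ⌈T / Real.log (x h)⌉₊
  have hr1 : ∀ h, 1 ≤ r h := fun h => Nat.one_le_ceil_iff.2 (div_pos hTpos (hxpos h))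
  have hrT : ∀ h, T ≤ r h * Real.log (x h) := fun h => by
    have := Nat.le_ceil (T / Real.log (x h))
    rwa [div_le_iff₀ (hxpos h)] at this
  have hr2 : ∀ h, (r h : ℝ) ≤ 2 * T / Real.log (x h) := fun h => by
    have h1 := (Nat.ceil_lt_add_one (div_pos hTpos (hxpos h)).le).le
    have h2 : (1 : ℝ) ≤ T / Real.log (x h) := by
      rw [le_div_iff₀ (hxpos h), one_mul]
      exact hxT h
    have h3 : 2 * T / Real.log (x h) = T / Real.log (x h) + T / Real.log (x h) := by ring
    rw [h3]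
    exact h1.trans (by linarith)
  have hr3 : ∀ h, (r h : ℝ) * Real.log (x h) ≤ 2 * T := fun h => by
    have := hr2 h
    rwa [le_div_iff₀ (hxpos h)] at this
  have hrr : ∀ h h', h < h' → (r h : ℝ) ≤ ω * r h' := by
    intro h h' hh
    have h1 : (2 / ω) * Real.log (x h') ≤ Real.log (x h) :=
      hgap _ _ (Fin.rev_lt_rev.2 hh)
    have h2 := hr2 h
    have h3 := Nat.le_ceil (T / Real.log (x h'))
    have h4 : 2 * T / Real.log (x h) ≤ ω * (T / Real.log (x h')) := by
      rw [← mul_div_assoc, div_le_div_iff₀ (hxpos h) (hxpos h')]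
      have h5 : 2 * Real.log (x h') ≤ ω * Real.log (x h) := by
        have h6 := mul_le_mul_of_nonneg_left h1 hω0.le
        have h7 : ω * (2 / ω * Real.log (x h')) = 2 * Real.log (x h') := by field_simp
        rwa [h7] at h6
      calc 2 * T * Real.log (x h') = T * (2 * Real.log (x h')) := by ring
        _ ≤ T * (ω * Real.log (x h)) := mul_le_mul_of_nonneg_left h5 hTpos.le
        _ = _ := by ring
    exact h2.trans (h4.trans (mul_le_mul_of_nonneg_left h3 hω0.le))
  have hx1 : ∀ h, 1 ≤ x h := fun h => hy1 _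
  have hsumr : (∑ h, (r h : ℝ)) ≤ ω / 6 * T := by
    have h1 : ∀ h, (r h : ℝ) ≤ ω / (6 * M) * T := by
      intro h
      refine (hr2 h).trans ?_
      rw [div_le_iff₀ (hxpos h)]
      have h2 := mul_le_mul_of_nonneg_left (hxB h) (show 0 ≤ ω / (6 * M) * T by positivity)
      have h3 : ω / (6 * M) * T * (12 * M / ω) = 2 * T := by
        field_simp
        norm_num
      rw [h3] at h2
      exact h2
    calc (∑ h, (r h : ℝ)) ≤ ∑ _h : Fin M, ω / (6 * M) * T := Finset.sum_le_sum fun h _ => h1 h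
      _ = ω / 6 * T := by
        rw [Finset.sum_const, Finset.card_univ, Fintype.card_fin, nsmul_eq_mul]
        field_simp
  have hsumr' : (∑ h, (r h : ℝ)) ≤ ω * T := hsumr.trans
    (mul_le_mul_of_nonneg_right (by linarith) hTpos.le)
  have hsumrx : (∑ h, (r h : ℝ) * Real.log (x h)) ≤ 2 * M * T := by
    calc (∑ h, (r h : ℝ) * Real.log (x h)) ≤ ∑ _h : Fin M, 2 * T :=
          Finset.sum_le_sum fun h _ => hr3 h
      _ = 2 * M * T := by
        rw [Finset.sum_const, Finset.card_univ, Fintype.card_fin, nsmul_eq_mul]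
        ring
  -- the auxiliary polynomial
  let pr : Fin s → ℕ := fun q => (S.equivFin.symm q : ℕ)
  have hpr : ∀ q, pr q ∈ S := fun q => (S.equivFin.symm q).2
  let D : Fin M → ℕ := fun h => ⌊(x h : ℝ) ^ η⌋₊
  have hxr : ∀ h, (1 : ℝ) ≤ x h := fun h => by exact_mod_cast hx1 h
  have hD1 : ∀ h, 1 ≤ D h := fun h => by
    rw [Nat.one_le_floor_iff]
    exact Real.one_le_rpow (hxr h) hη0.le
  obtain ⟨P, hP, hdeg, hL1, hord⟩ := exists_aux M s hs1 (by omega) r hr1
    (fun q h => -((a (Fin.rev h).val (pr q) : ℕ) : ℤ)) D hD1 (fun q h => by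
      rw [Int.natAbs_neg, Int.natAbs_natCast]
      exact Nat.le_floor (ha1 _ _ (hpr q)))
  have hlog8 : Real.log 8 ≤ 3 := by
    have h1 : (8 : ℝ) = 2 ^ 3 := by norm_num
    have h2 := Real.log_le_sub_one_of_pos (show (0 : ℝ) < 2 by norm_num)
    rw [h1, Real.log_pow]
    push_cast
    linarith
  have hlogL : Real.log (L1 P) ≤ ω * T := by
    have h1 : (1 : ℝ) ≤ L1 P := by exact_mod_cast one_le_L1 hP
    have h2 : (L1 P : ℝ) ≤ 8 ^ (∑ h, r h) * ∏ h, (D h : ℝ) ^ r h := by exact_mod_cast hL1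
    have hDpos : ∀ h, (0 : ℝ) < D h := fun h => by exact_mod_cast hD1 h
    have h3 : Real.log (L1 P) ≤ (∑ h, (r h : ℝ)) * Real.log 8 + ∑ h, r h * Real.log (D h) := by
      refine (Real.log_le_log (by linarith) h2).trans (le_of_eq ?_)
      rw [Real.log_mul (by positivity) (Finset.prod_pos fun h _ => pow_pos (hDpos h) _).ne',
        Real.log_pow, Real.log_prod (fun h _ => (pow_pos (hDpos h) _).ne')]
      push_cast
      congr 1
      refine Finset.sum_congr rfl fun h _ => ?_
      rw [Real.log_pow]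
    have h4 : ∑ h, (r h : ℝ) * Real.log (D h) ≤ η * (2 * M * T) := by
      calc ∑ h, (r h : ℝ) * Real.log (D h) ≤ ∑ h, η * (r h * Real.log (x h)) := by
            refine Finset.sum_le_sum fun h _ => ?_
            have h5 : Real.log (D h) ≤ η * Real.log (x h) := by
              rw [← Real.log_rpow (by linarith [hxr h])]
              exact Real.log_le_log (hDpos h) (Nat.floor_le (by positivity))
            calc (r h : ℝ) * Real.log (D h) ≤ r h * (η * Real.log (x h)) :=
                  mul_le_mul_of_nonneg_left h5 (Nat.cast_nonneg _)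
              _ = _ := by ring
        _ = η * ∑ h, r h * Real.log (x h) := by rw [Finset.mul_sum]
        _ ≤ η * (2 * M * T) := mul_le_mul_of_nonneg_left hsumrx hη0.le
    have h6 : η * (2 * M * T) = ω / 2 * T := by
      rw [hη]
      field_simp
      ring
    have h7 : (∑ h, (r h : ℝ)) * Real.log 8 ≤ (ω / 6 * T) * 3 :=
      mul_le_mul hsumr hlog8 (Real.log_nonneg (by norm_num)) (by positivity)
    linarith
  obtain ⟨i, hi, hne0⟩ := H r x T P hr1 hrr hx1 hrT hsumr' hP hdeg hlogL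
  set q0 := coeff i (sh (fun h => (x h : ℤ)) P) with hq0
  -- upper bound
  have hup : Real.log (q0.natAbs) ≤ (2 * M + 2) * T := by
    have h1 := natAbs_coeff_sh r P hdeg x hx1 i
    have h2 : (q0.natAbs : ℝ) ≤ 2 ^ (∑ h, r h) * (∏ h, (x h : ℝ) ^ r h) * L1 P := by
      exact_mod_cast h1
    have h3 : (0 : ℝ) < q0.natAbs := by
      have := Int.natAbs_pos.2 hne0
      exact_mod_cast this
    have h4 : (0 : ℝ) < L1 P := by
      have := one_le_L1 hP
      exact_mod_cast this
    have hprod : (0 : ℝ) < ∏ h, (x h : ℝ) ^ r h := Finset.prod_pos fun h _ =>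
      pow_pos (by linarith [hxr h]) _
    have h5 : Real.log (q0.natAbs) ≤ (∑ h, (r h : ℝ)) * Real.log 2 +
        ∑ h, r h * Real.log (x h) + Real.log (L1 P) := by
      refine (Real.log_le_log h3 h2).trans (le_of_eq ?_)
      rw [Real.log_mul (by positivity) h4.ne', Real.log_mul (by positivity) hprod.ne', Real.log_pow,
        Real.log_prod (fun h _ => (pow_pos (by linarith [hxr h]) _).ne')]
      push_cast
      congr 2
      refine Finset.sum_congr rfl fun h _ => ?_
      rw [Real.log_pow]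
    have h6 : Real.log 2 ≤ 1 := by
      have := Real.log_le_sub_one_of_pos (show (0 : ℝ) < 2 by norm_num)
      linarith
    have h7 : (∑ h, (r h : ℝ)) * Real.log 2 ≤ ω * T := by
      refine le_trans (mul_le_of_le_one_right ?_ h6) hsumr'
      exact Finset.sum_nonneg fun h _ => Nat.cast_nonneg _
    have h8 : ω * T ≤ T := mul_le_of_le_one_left hTpos.le hω1
    linarith
  -- divisibility
  have hdvd : ∀ p ∈ S, (p : ℤ) ^ ⌈κ p * T * ((M : ℝ) / 4 - 1)⌉₊ ∣ q0 := by
    intro p hp
    obtain ⟨q, hq⟩ : ∃ q, pr q = p := ⟨S.equivFin ⟨p, hp⟩, by simp [pr]⟩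
    have h1 := pow_dvd_coeff_sh p r _ _ (hord q)
      (fun h => (x h : ℤ) + (a (Fin.rev h).val (pr q) : ℕ)) (fun h => e (Fin.rev h).val p)
      (fun h => by
        have := (he (Fin.rev h).val p hp).2
        rw [hq]
        exact_mod_cast this) i ⌈κ p * T * ((M : ℝ) / 4 - 1)⌉₊ (fun t ht => by
        rw [Nat.ceil_le]
        push_cast
        have h2 : ∀ h : Fin M, κ p * T * ((t h : ℝ) / r h) ≤ t h * e (Fin.rev h).val p := by
          intro h
          have h3 : κ p * Real.log (x h) ≤ e (Fin.rev h).val p := (he (Fin.rev h).val p hp).1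
          have hrpos : (0 : ℝ) < r h := by
            have := hr1 h
            exact_mod_cast this
          have h4 : T / r h ≤ Real.log (x h) := by
            rw [div_le_iff₀ hrpos, mul_comm]
            exact hrT h
          have h5 : κ p * (T / r h) ≤ e (Fin.rev h).val p :=
            (mul_le_mul_of_nonneg_left h4 (hκ p hp)).trans h3
          calc κ p * T * ((t h : ℝ) / r h) = t h * (κ p * (T / r h)) := by ring
            _ ≤ _ := mul_le_mul_of_nonneg_left h5 (Nat.cast_nonneg _)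
        calc κ p * T * ((M : ℝ) / 4 - 1) ≤ κ p * T * ∑ h, (t h : ℝ) / r h := by
              refine mul_le_mul_of_nonneg_left (le_trans ?_ ht) (mul_nonneg (hκ p hp) hTpos.le)
              linarith
          _ = ∑ h, κ p * T * ((t h : ℝ) / r h) := by rw [Finset.mul_sum]
          _ ≤ _ := Finset.sum_le_sum fun h _ => h2 h)
    rw [sh_sh] at h1
    have h6 : (fun h : Fin M => ((x h : ℤ) + (a (Fin.rev h).val (pr q) : ℕ)) +
        -((a (Fin.rev h).val (pr q) : ℕ) : ℤ)) = fun h => (x h : ℤ) := by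
      funext h
      ring
    rw [h6] at h1
    exact h1
  have hprod : ∏ p ∈ S, (p : ℤ) ^ ⌈κ p * T * ((M : ℝ) / 4 - 1)⌉₊ ∣ q0 := by
    refine Finset.prod_dvd_of_coprime ?_ hdvd
    intro p hp p' hp' hpp
    refine IsCoprime.pow (Nat.isCoprime_iff_coprime.2 ?_)
    exact (Nat.coprime_primes (hS p hp) (hS p' hp')).2 hpp
  have hlow : (∑ p ∈ S, κ p * Real.log p) * (T * ((M : ℝ) / 4 - 1)) ≤ Real.log (q0.natAbs) := by
    have h1 : (∏ p ∈ S, p ^ ⌈κ p * T * ((M : ℝ) / 4 - 1)⌉₊) ≤ q0.natAbs := by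
      refine Nat.le_of_dvd (Int.natAbs_pos.2 hne0) ?_
      rw [← Int.natCast_dvd]
      push_cast
      exact hprod
    have h2 : (∏ p ∈ S, (p : ℝ) ^ ⌈κ p * T * ((M : ℝ) / 4 - 1)⌉₊) ≤ q0.natAbs := by
      exact_mod_cast h1
    have hpos : ∀ p ∈ S, (0 : ℝ) < (p : ℝ) ^ ⌈κ p * T * ((M : ℝ) / 4 - 1)⌉₊ := fun p hp => by
      have := (hS p hp).pos
      positivity
    refine le_trans ?_ (Real.log_le_log (Finset.prod_pos hpos) h2)
    rw [Real.log_prod (fun p hp => (hpos p hp).ne'), Finset.sum_mul]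
    refine Finset.sum_le_sum fun p hp => ?_
    rw [Real.log_pow]
    have h3 := Nat.le_ceil (κ p * T * ((M : ℝ) / 4 - 1))
    have h4 : 0 ≤ Real.log p := Real.log_natCast_nonneg p
    calc κ p * Real.log p * (T * ((M : ℝ) / 4 - 1)) =
          (κ p * T * ((M : ℝ) / 4 - 1)) * Real.log p := by ring
      _ ≤ _ := mul_le_mul_of_nonneg_right h3 h4
  have hfac : 0 < T * ((M : ℝ) / 4 - 1) := mul_pos hTpos (by linarith)
  have hfin := mul_lt_mul_of_pos_right hsum hfac
  have h9 : 20 * (T * ((M : ℝ) / 4 - 1)) < (2 * M + 2) * T := (hfin.trans_le hlow).trans_le hup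
  nlinarith

end W156h39
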