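import Pool.Agent.W_156d3b_h39.Len

/-!
# Order of vanishing of a univariate integer polynomial at a large integer
-/

set_option autoImplicit false

namespace W156h39

open MvPolynomial Finset

/-- to one variable -/
noncomputable def UniP : MvPolynomial (Fin 1) ℤ →ₐ[ℤ] Polynomial ℤ :=
  aeval fun _ => Polynomial.X

theorem Uni_coeff (V : MvPolynomial (Fin 1) ℤ) (n : ℕ) :
    (UniP V).coeff n = coeff (Finsupp.single 0 n) V := by
  induction V using MvPolynomial.induction_on' with
  | monomial j c =>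
    have h1 : UniP (monomial j c) = Polynomial.C c * Polynomial.X ^ (j 0) := by
      unfold UniP
      rw [aeval_monomial, Finsupp.prod_fintype _ _ (fun _ => pow_zero _)]
      simp
    rw [h1, Polynomial.coeff_C_mul_X_pow, coeff_monomial]
    have h2 : j = Finsupp.single 0 n ↔ n = j 0 := by
      constructor
      · intro h
        rw [h]
        simp
      · intro h
        refine Finsupp.ext fun t => ?_
        have ht : t = 0 := Subsingleton.elim _ _
        rw [ht, h]
        simp
    simp only [h2]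
  | add p q hp hq => rw [map_add, Polynomial.coeff_add, coeff_add, hp, hq]

theorem Uni_ne {V : MvPolynomial (Fin 1) ℤ} (hV : V ≠ 0) : UniP V ≠ 0 := by
  intro h
  apply hV
  ext j
  have h1 : j = Finsupp.single 0 (j 0) := by
    refine Finsupp.ext fun t => ?_
    have ht : t = 0 := Subsingleton.elim _ _
    rw [ht]
    simp
  rw [h1, ← Uni_coeff, h]
  simp

theorem Uni_sh (V : MvPolynomial (Fin 1) ℤ) (x : ℤ) :
    UniP (sh (fun _ => x) V) = (UniP V).comp (Polynomial.X + Polynomial.C x) := by
  have h1 : UniP.comp (sh (fun _ => x)) =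
      (Polynomial.aeval (Polynomial.X + Polynomial.C x) : Polynomial ℤ →ₐ[ℤ] Polynomial ℤ).comp
        UniP := by
    apply MvPolynomial.algHom_ext
    intro t
    simp [UniP, sh]
  have h2 := congrArg (fun f => f V) h1
  simpa [Polynomial.aeval_def, Polynomial.comp, Polynomial.eval₂_eq_eval_map] using h2

theorem Uni_trail (x : ℤ) (hx : x ≠ 0) (a : ℕ) :
    ((Polynomial.X - Polynomial.C x) ^ a).trailingCoeff = (-x) ^ a := by
  induction a with
  | zero =>
    rw [pow_zero, pow_zero, Polynomial.trailingCoeff_eq_coeff_zero] <;> simp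
  | succ a ih =>
    rw [pow_succ, Polynomial.trailingCoeff_mul, ih, pow_succ]
    congr 1
    rw [Polynomial.trailingCoeff_eq_coeff_zero] <;> simp [hx]

/-- PROOF. Translate to `Polynomial ℤ` (`finOneEquiv`/`pUnitAlgEquiv`, or evaluate `aeval`):
`v ∈ ℤ[X]` nonzero, `a` = `rootMultiplicity x v`, `v = (X - x)^a q`, `q(x) ≠ 0`
(`Polynomial.exists_eq_pow_rootMultiplicity_mul_and_not_dvd`).  The coefficient of `X^a` in `v (X + x)` is
`q(x) ≠ 0`.  `trailingCoeff` is multiplicative (`Polynomial.trailingCoeff_mul`), so the trailing coefficient of `v`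
is (-x)^a * trailingCoeff q, nonzero, of absolute value `≥ x^a`, and it is a coefficient of `V`
(`natAbs_coeff_le`). -/
theorem uni_order (V : MvPolynomial (Fin 1) ℤ) (hV : V ≠ 0) (x : ℕ) (hx : 1 ≤ x) :
    ∃ a : ℕ, x ^ a ≤ L1 V ∧ coeff (Finsupp.single 0 a) (sh (fun _ => (x : ℤ)) V) ≠ 0 := by
  set v := UniP V with hv
  have hv0 : v ≠ 0 := Uni_ne hV
  obtain ⟨q, hq, hnd⟩ := Polynomial.exists_eq_pow_rootMultiplicity_mul_and_not_dvd v hv0 (x : ℤ)
  set a := v.rootMultiplicity (x : ℤ) with ha
  have hx0 : (x : ℤ) ≠ 0 := by exact_mod_cast (by omega : x ≠ 0)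
  have hq0 : q ≠ 0 := by
    rintro rfl
    exact hnd (dvd_zero _)
  refine ⟨a, ?_, ?_⟩
  · have h1 : v.trailingCoeff = (-(x : ℤ)) ^ a * q.trailingCoeff := by
      conv_lhs => rw [hq]
      rw [Polynomial.trailingCoeff_mul, Uni_trail _ hx0]
    have h2 : x ^ a ≤ v.trailingCoeff.natAbs := by
      rw [h1, Int.natAbs_mul, Int.natAbs_pow, Int.natAbs_neg, Int.natAbs_natCast]
      have h3 : 1 ≤ q.trailingCoeff.natAbs :=
        Nat.one_le_iff_ne_zero.2 (Int.natAbs_ne_zero.2
          (Polynomial.trailingCoeff_nonzero_iff_nonzero.2 hq0))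
      calc x ^ a = x ^ a * 1 := (mul_one _).symm
        _ ≤ _ := Nat.mul_le_mul_left _ h3
    refine h2.trans ?_
    unfold Polynomial.trailingCoeff
    rw [hv, Uni_coeff]
    exact natAbs_coeff_le V _
  · rw [← Uni_coeff, Uni_sh, ← hv, hq, Polynomial.mul_comp, Polynomial.pow_comp]
    have h1 : (Polynomial.X - Polynomial.C (x : ℤ)).comp (Polynomial.X + Polynomial.C (x : ℤ)) =
        Polynomial.X := by simp
    rw [h1]
    have h2 := Polynomial.coeff_X_pow_mul (q.comp (Polynomial.X + Polynomial.C (x : ℤ))) a 0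
    rw [zero_add] at h2
    rw [h2, Polynomial.coeff_zero_eq_eval_zero, Polynomial.eval_comp]
    simp only [Polynomial.eval_add, Polynomial.eval_X, Polynomial.eval_C, zero_add]
    intro h3
    exact hnd (Polynomial.dvd_iff_isRoot.2 h3)

end W156h39
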