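import Pool.Agent.W_156d3b_h39.Ord
import Pool.Agent.W_156d3b_h39.Avg
import Pool.Agent.W_156d3b_h39.GW
import Pool.Agent.W_156d3b_h39.Decomp
import Pool.Agent.W_156d3b_h39.Factor
import Pool.Agent.W_156d3b_h39.Uni

/-!
# Roth's lemma (index of an integer polynomial with small coefficients at an integer point)
-/

set_option autoImplicit false

namespace W156h39

open MvPolynomial Finset

theorem Roth_wt_cons {M : ℕ} (r : Fin (M + 1) → ℕ) (a : ℕ) (b : Fin M →₀ ℕ) :
    wt r (Finsupp.cons a b) = (a : ℝ) / r 0 + ∑ h : Fin M, (b h : ℝ) / r h.succ := by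
  unfold wt
  rw [Fin.sum_univ_succ]
  simp only [Finsupp.cons_zero, Finsupp.cons_succ]

/-- the size of the Wronskian -/
theorem Roth_log {l r0 s B : ℕ} {ω T : ℝ} (hl1 : 1 ≤ l) (hl : l ≤ r0 + 1) (hrs : r0 ≤ s)
    (hs : (s : ℝ) ≤ ω * T) (hB : 1 ≤ B) (hBT : Real.log B ≤ ω * T) {L : ℕ} (hL1 : 1 ≤ L)
    (hL : L ≤ l.factorial * (2 ^ s * B) ^ l) : Real.log L ≤ l * (3 * (ω * T)) := by
  have hlpos : (0 : ℝ) < l := by exact_mod_cast hl1
  have h1 : (L : ℝ) ≤ (l : ℝ) ^ l * ((2 : ℝ) ^ s * B) ^ l := by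
    have h2 : l.factorial * (2 ^ s * B) ^ l ≤ l ^ l * (2 ^ s * B) ^ l :=
      Nat.mul_le_mul_right _ (Nat.factorial_le_pow l)
    exact_mod_cast hL.trans h2
  have hBpos : (0 : ℝ) < B := by exact_mod_cast hB
  have hLpos : (0 : ℝ) < L := by exact_mod_cast hL1
  have h3 : Real.log L ≤ l * Real.log l + l * (s * Real.log 2 + Real.log B) := by
    refine (Real.log_le_log hLpos h1).trans (le_of_eq ?_)
    rw [Real.log_mul (by positivity) (by positivity), Real.log_pow, Real.log_pow,
      Real.log_mul (by positivity) (by positivity), Real.log_pow]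
  have h4 : Real.log l ≤ r0 := by
    have h5 := Real.log_le_sub_one_of_pos hlpos
    have h6 : (l : ℝ) ≤ r0 + 1 := by exact_mod_cast hl
    linarith
  have h7 : Real.log 2 ≤ 1 := by
    have := Real.log_le_sub_one_of_pos (show (0 : ℝ) < 2 by norm_num)
    linarith
  have h8 : (s : ℝ) * Real.log 2 ≤ s := mul_le_of_le_one_right (by positivity) h7
  have h9 : (r0 : ℝ) ≤ s := by exact_mod_cast hrs
  have h10 : Real.log L ≤ l * (Real.log l + (s * Real.log 2 + Real.log B)) := by linarith
  refine h10.trans (mul_le_mul_of_nonneg_left ?_ hlpos.le)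
  linarith

/-- Roth's lemma.  The variable `0` has the smallest degree and the largest coordinate. -/
theorem roth_lemma (M : ℕ) (ε : ℝ) (hε : 0 < ε) (hε1 : ε ≤ 1) :
    ∃ ω : ℝ, 0 < ω ∧ ω ≤ 1 ∧ ∀ (r : Fin M → ℕ) (x : Fin M → ℕ) (T : ℝ)
      (P : MvPolynomial (Fin M) ℤ), (∀ h, 1 ≤ r h) → (∀ h h', h < h' → (r h : ℝ) ≤ ω * r h') →
      (∀ h, 1 ≤ x h) → (∀ h, T ≤ r h * Real.log (x h)) → (∑ h, (r h : ℝ)) ≤ ω * T → P ≠ 0 →
      (∀ h, degreeOf h P ≤ r h) → Real.log (L1 P) ≤ ω * T →
      ∃ i : Fin M →₀ ℕ, wt r i < ε ∧ coeff i (sh (fun h => (x h : ℤ)) P) ≠ 0 := by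
  induction M generalizing ε with
  | zero =>
    refine ⟨1, one_pos, le_rfl, ?_⟩
    intro r x T P _ _ _ _ _ hP _ _
    refine ⟨0, ?_, ?_⟩
    · unfold wt
      simpa using hε
    · intro h0
      apply sh_ne_zero (fun h => (x h : ℤ)) hP
      ext i
      rw [Subsingleton.elim i 0, h0, coeff_zero]
  | succ M ih =>
    obtain ⟨ω', hω'0, hω'1, H⟩ := ih (ε ^ 2 / 32) (by positivity) (by nlinarith)
    set ω := min (ω' / 3) (ε ^ 2 / 96) with hω
    have hω0 : 0 < ω := lt_min (by positivity) (by positivity)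
    have hωω' : 3 * ω ≤ ω' := by
      have : ω ≤ ω' / 3 := min_le_left _ _
      linarith
    have hωε : ω ≤ ε ^ 2 / 96 := min_le_right _ _
    have hεε : ε ^ 2 ≤ ε := by nlinarith
    refine ⟨ω, hω0, by linarith, ?_⟩
    intro r x T P hr hrr hx hT hsum hP hdeg hL
    by_contra hcon
    have hord : OrdGe r ε (sh (fun h => (x h : ℤ)) P) := by
      intro i hi
      by_contra hlt
      exact hcon ⟨i, not_le.1 hlt, hi⟩
    have hr0 : (1 : ℝ) ≤ r 0 := by exact_mod_cast hr 0
    have hsle : ∀ h, (r h : ℝ) ≤ ∑ h, (r h : ℝ) := fun h =>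
      Finset.single_le_sum (f := fun h => (r h : ℝ)) (fun _ _ => Nat.cast_nonneg _)
        (Finset.mem_univ h)
    have hωT : 1 ≤ ω * T := (hr0.trans (hsle 0)).trans hsum
    have hTpos : 0 < T := by
      by_contra h
      have := mul_nonpos_of_nonneg_of_nonpos hω0.le (not_lt.1 h)
      linarith
    -- the rational polynomial and its decomposition
    have hcast : Function.Injective (Int.castRingHom ℚ) := Int.cast_injective
    have hmapinj : Function.Injective (map (σ := Fin (M + 1)) (Int.castRingHom ℚ)) :=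
      map_injective _ hcast
    have hPQ : map (Int.castRingHom ℚ) P ≠ 0 := fun h =>
      hP (hmapinj (by rw [h, map_zero]))
    have hdegQ : degreeOf 0 (map (Int.castRingHom ℚ) P) ≤ r 0 := by
      refine le_trans ?_ (hdeg 0)
      rw [degreeOf_eq_sup, degreeOf_eq_sup]
      exact Finset.sup_mono (support_map_subset _ _)
    obtain ⟨l, hl1, hl, g, f, hg, hf, hPgf⟩ :=
      exists_decomp (map (Int.castRingHom ℚ) P) hPQ (r 0) hdegQ
    obtain ⟨J, hJ, hJdet⟩ := gw l g hg
    obtain ⟨I, hI, hIdet⟩ := gw l f hf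
    have hJa : ∀ ν, J ν = Finsupp.single 0 (J ν 0) := by
      intro ν
      refine Finsupp.ext fun s => ?_
      rw [Subsingleton.elim s 0, Finsupp.single_eq_same]
    have hJν : ∀ ν : Fin l, J ν 0 ≤ (ν : ℕ) := by
      intro ν
      have := hJ ν
      simpa using this
    set A : Matrix (Fin l) (Fin l) (MvPolynomial (Fin (M + 1)) ℤ) :=
      Matrix.of fun μ ν => hD (Finsupp.cons (J ν 0) (I μ)) P with hA
    have hWQ : map (Int.castRingHom ℚ) A.det =
        ext (Matrix.of fun ν j => hD (J ν) (g j)).det (Matrix.of fun μ j => hD (I μ) (f j)).det := by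
      rw [← det_ext, RingHom.map_det]
      congr 1
      ext1 μ ν
      rw [RingHom.mapMatrix_apply, Matrix.map_apply, hA, Matrix.of_apply, Matrix.of_apply, map_hD,
        hPgf, map_sum]
      refine Finset.sum_congr rfl fun j _ => ?_
      rw [hD_ext, ← hJa]
      rfl
    have hW : A.det ≠ 0 := by
      intro h
      rw [h, map_zero] at hWQ
      exact ext_ne_zero hJdet hIdet hWQ.symm
    -- the index of the Wronskian
    have hl1' : (1 : ℝ) ≤ l := by exact_mod_cast hl1
    have hlr : (l : ℝ) ≤ r 0 + 1 := by exact_mod_cast hl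
    have hentry : ∀ μ ν : Fin l, OrdGe r (max 0 ((ε - ω) - (ν : ℝ) / r 0))
        (sh (fun h => (x h : ℤ)) (A μ ν)) := by
      intro μ ν
      refine OrdGe_max (OrdGe_zero _ _) ?_
      rw [hA, Matrix.of_apply, ← hD_sh]
      refine OrdGe_mono (OrdGe_hD hord _) ?_
      rw [Roth_wt_cons]
      have h1 : ((J ν 0 : ℕ) : ℝ) / r 0 ≤ (ν : ℝ) / r 0 :=
        div_le_div_of_nonneg_right (by exact_mod_cast hJν ν) (by positivity)
      have h2 : ∑ h : Fin M, ((I μ h : ℕ) : ℝ) / r h.succ ≤ ω := by
        have h3 : ∀ h : Fin M, ((I μ h : ℕ) : ℝ) / r h.succ ≤ (I μ h : ℝ) * (ω / r 0) := by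
          intro h
          rw [div_eq_mul_inv]
          refine mul_le_mul_of_nonneg_left ?_ (Nat.cast_nonneg _)
          have h4 := hrr 0 h.succ (Fin.succ_pos h)
          have h5 : (0 : ℝ) < r h.succ := by
            have := hr h.succ
            exact_mod_cast this
          rw [inv_eq_one_div, div_le_div_iff₀ h5 (by linarith)]
          linarith
        refine (Finset.sum_le_sum fun h _ => h3 h).trans ?_
        rw [← Finset.sum_mul]
        have h6 : (∑ h : Fin M, ((I μ h : ℕ) : ℝ)) ≤ r 0 := by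
          have h7 := hI μ
          have h8 : (μ : ℕ) ≤ r 0 := by have := μ.2; omega
          have h9 : (∑ h : Fin M, I μ h) ≤ r 0 := h7.trans h8
          exact_mod_cast h9
        calc (∑ h : Fin M, ((I μ h : ℕ) : ℝ)) * (ω / r 0) ≤ r 0 * (ω / r 0) :=
              mul_le_mul_of_nonneg_right h6 (by positivity)
          _ = ω := by field_simp
      linarith
    have hdetord : OrdGe r ((l : ℝ) * (ε ^ 2 / 16)) (sh (fun h => (x h : ℤ)) A.det) := by
      have h1 := OrdGe_det ((sh (fun h => (x h : ℤ))).mapMatrix A)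
        (fun ν : Fin l => max 0 ((ε - ω) - (ν : ℝ) / r 0)) hentry
      rw [← AlgHom.map_det] at h1
      refine OrdGe_mono h1 (le_trans ?_ (avg_max (ε - ω) (by nlinarith) (by linarith) (r 0) l (hr 0) hl))
      have h2 : ε / 2 ≤ ε - ω := by nlinarith
      have h3 : (ε / 2) ^ 2 ≤ (ε - ω) ^ 2 := pow_le_pow_left₀ (by positivity) h2 2
      have h4 := mul_le_mul_of_nonneg_left h3 (by linarith : (0 : ℝ) ≤ l)
      nlinarith
    -- the size of the Wronskian
    have hLW : Real.log (L1 A.det) ≤ l * (3 * (ω * T)) := by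
      refine Roth_log (r0 := r 0) (s := ∑ h, r h) (B := L1 P) hl1 hl
        (Finset.single_le_sum (f := r) (fun _ _ => Nat.zero_le _) (Finset.mem_univ 0))
        (by push_cast; exact hsum) (one_le_L1 hP) hL (one_le_L1 hW) ?_
      exact L1_det A _ fun μ ν => L1_hD r P hdeg _
    have hWdeg : ∀ s, degreeOf s A.det ≤ l * r s := fun s =>
      degreeOf_det A s (r s) fun μ ν => (degreeOf_hD s _ P).trans (hdeg s)
    obtain ⟨V, U, hV, hU, hLV, hLU, hdegU, hnv⟩ := exists_factor A.det hW _ _ hWQ
    have hlogV : Real.log (L1 V) ≤ l * (3 * (ω * T)) :=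
      (Real.log_le_log (by exact_mod_cast one_le_L1 hV) (by exact_mod_cast hLV)).trans hLW
    have hlogU : Real.log (L1 U) ≤ l * (3 * (ω * T)) :=
      (Real.log_le_log (by exact_mod_cast one_le_L1 hU) (by exact_mod_cast hLU)).trans hLW
    -- the factor in one variable
    obtain ⟨a, ha, haV⟩ := uni_order V hV (x 0) (hx 0)
    have hlogx : 0 < Real.log (x 0) := by
      have h1 := hT 0
      by_contra h
      have := mul_nonpos_of_nonneg_of_nonpos (show (0 : ℝ) ≤ r 0 by linarith) (not_lt.1 h)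
      linarith
    have haω : (a : ℝ) / r 0 ≤ l * (ε ^ 2 / 32) := by
      have h1 : (a : ℝ) * Real.log (x 0) ≤ l * (3 * (ω * T)) := by
        rw [← Real.log_pow]
        refine (Real.log_le_log ?_ ?_).trans hlogV
        · have : (0 : ℝ) < x 0 := by exact_mod_cast hx 0
          positivity
        · exact_mod_cast ha
      have h2 : (l : ℝ) * (3 * (ω * T)) ≤ l * (3 * (ω * (r 0 * Real.log (x 0)))) := by
        have := hT 0
        gcongr
      have h3 : (a : ℝ) * Real.log (x 0) ≤ (l * (3 * ω) * r 0) * Real.log (x 0) := by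
        refine (h1.trans h2).trans (le_of_eq (by ring))
      have h4 : (a : ℝ) ≤ l * (3 * ω) * r 0 := le_of_mul_le_mul_right h3 hlogx
      rw [div_le_iff₀ (by linarith)]
      refine h4.trans ?_
      have h5 : (l : ℝ) * (3 * ω) ≤ l * (ε ^ 2 / 32) :=
        mul_le_mul_of_nonneg_left (by linarith) (by linarith)
      exact mul_le_mul_of_nonneg_right h5 (by linarith)
    -- the factor in the other variables
    obtain ⟨b, hb, hbU⟩ := H (fun h => l * r h.succ) (fun h => x h.succ) (l * T) U
      (fun h => Nat.mul_pos hl1 (hr h.succ))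
      (fun h h' hh => by
        have h1 := hrr h.succ h'.succ (Fin.succ_lt_succ_iff.2 hh)
        push_cast
        have h2 : ω * (r h'.succ : ℝ) ≤ ω' * r h'.succ :=
          mul_le_mul_of_nonneg_right (by linarith) (Nat.cast_nonneg _)
        calc (l : ℝ) * r h.succ ≤ l * (ω' * r h'.succ) :=
              mul_le_mul_of_nonneg_left (h1.trans h2) (by linarith)
          _ = ω' * (l * r h'.succ) := by ring)
      (fun h => hx h.succ)
      (fun h => by
        have h1 := hT h.succ
        push_cast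
        calc (l : ℝ) * T ≤ l * (r h.succ * Real.log (x h.succ)) :=
              mul_le_mul_of_nonneg_left h1 (by linarith)
          _ = _ := by ring)
      (by
        push_cast
        rw [← Finset.mul_sum]
        have h1 : ∑ h : Fin M, (r h.succ : ℝ) ≤ ω * T := by
          rw [Fin.sum_univ_succ] at hsum
          linarith
        have h2 : ω * T ≤ ω' * T := mul_le_mul_of_nonneg_right (by linarith) hTpos.le
        calc (l : ℝ) * ∑ h : Fin M, (r h.succ : ℝ) ≤ l * (ω' * T) :=
              mul_le_mul_of_nonneg_left (h1.trans h2) (by linarith)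
          _ = _ := by ring)
      hU (fun h => (hdegU h).trans (hWdeg h.succ))
      (by
        refine hlogU.trans ?_
        have h2 : 3 * ω * T ≤ ω' * T := mul_le_mul_of_nonneg_right hωω' hTpos.le
        calc (l : ℝ) * (3 * (ω * T)) = l * (3 * ω * T) := by ring
          _ ≤ l * (ω' * T) := mul_le_mul_of_nonneg_left h2 (by linarith)
          _ = _ := by ring)
    have hbsum : ∑ h : Fin M, (b h : ℝ) / r h.succ < l * (ε ^ 2 / 32) := by
      have h1 : ∑ h : Fin M, (b h : ℝ) / r h.succ = l * wt (fun h => l * r h.succ) b := by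
        unfold wt
        rw [Finset.mul_sum]
        refine Finset.sum_congr rfl fun h _ => ?_
        push_cast
        have h2 : (l : ℝ) ≠ 0 := by linarith
        have h3 : (r h.succ : ℝ) ≠ 0 := by
          have := hr h.succ
          positivity
        field_simp
      rw [h1]
      exact mul_lt_mul_of_pos_left hb (by linarith)
    have hne := hnv (fun h => (x h : ℤ)) a b haV hbU
    have hfin := hdetord _ hne
    rw [Roth_wt_cons] at hfin
    linarith

end W156h39
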