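import Pool.Agent.W_156d3b_h39.HD

/-!
# Translations of polynomials and Taylor's formula
-/

set_option autoImplicit false

namespace W156h39

open MvPolynomial Finset

section

variable {σ : Type*} {R : Type*} [CommRing R]

theorem Sh_C (x : σ → R) (a : R) : sh x (C a) = C a := by
  unfold sh
  rw [aeval_C, algebraMap_eq]

theorem Sh_X (x : σ → R) (h : σ) : sh x (X h) = X h + C (x h) := by
  unfold sh
  rw [aeval_X]

theorem Sh_eval (x y : σ → R) (P : MvPolynomial σ R) :
    eval y (sh x P) = eval (fun h => y h + x h) P := by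
  induction P using MvPolynomial.induction_on with
  | C a => rw [Sh_C, eval_C, eval_C]
  | add p q hp hq => rw [map_add, map_add, map_add, hp, hq]
  | mul_X p h hp => rw [map_mul, map_mul, map_mul, hp, Sh_X]; simp

theorem map_sh {S : Type*} [CommRing S] (φ : R →+* S) (x : σ → R) (P : MvPolynomial σ R) :
    map φ (sh x P) = sh (fun h => φ (x h)) (map φ P) := by
  induction P using MvPolynomial.induction_on with
  | C a => rw [Sh_C, map_C, Sh_C]
  | add p q hp hq => simp only [map_add, hp, hq]
  | mul_X p h hp => simp only [map_mul, hp, Sh_X, map_add, map_X, map_C]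

theorem sh_sh (x y : σ → R) (P : MvPolynomial σ R) :
    sh x (sh y P) = sh (fun h => x h + y h) P := by
  induction P using MvPolynomial.induction_on with
  | C a => rw [Sh_C, Sh_C, Sh_C]
  | add p q hp hq => simp only [map_add, hp, hq]
  | mul_X p h hp =>
    simp only [map_mul, hp, Sh_X, map_add, Sh_C]
    ring

theorem sh_zero (P : MvPolynomial σ R) : sh (fun _ => (0 : R)) P = P := by
  induction P using MvPolynomial.induction_on with
  | C a => rw [Sh_C]
  | add p q hp hq => simp only [map_add, hp, hq]
  | mul_X p h hp => simp only [map_mul, hp, Sh_X, map_zero, add_zero]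

/-- `sh_sh`, `sh_zero` -/
theorem sh_ne_zero (x : σ → R) {P : MvPolynomial σ R} (hP : P ≠ 0) : sh x P ≠ 0 := by
  intro h
  apply hP
  have h1 := sh_sh (fun h => - x h) x P
  rw [h, map_zero] at h1
  have h2 : (fun h => - x h + x h) = fun _ => (0 : R) := by
    funext k; ring
  rw [h2, sh_zero] at h1
  exact h1.symm

/-- both sides are derivations (`MvPolynomial.induction_on`) -/
theorem pderiv_sh [DecidableEq σ] (s : σ) (x : σ → R) (P : MvPolynomial σ R) :
    pderiv s (sh x P) = sh x (pderiv s P) := by
  induction P using MvPolynomial.induction_on with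
  | C a => simp only [Sh_C, pderiv_C, map_zero]
  | add p q hp hq => simp only [map_add, hp, hq]
  | mul_X p h hp =>
    have h1 : sh x (pderiv s (X h)) = pderiv s (X h) := by
      rw [pderiv_X]
      by_cases hs : h = s
      · subst hs
        simp
      · simp [Pi.single_eq_of_ne hs]
    rw [map_mul, pderiv_mul, pderiv_mul, map_add, map_mul, map_mul, hp, Sh_X, map_add, pderiv_C,
      add_zero, h1]

end

section

variable {σ : Type*} [Fintype σ] {R : Type*} [CommRing R]

/-- Taylor's formula for a monomial: `sh x (monomial j c) = C c * ∏ h, (X h + C (x h)) ^ (j h)`; expand each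
power by `add_pow`, then `Finset.prod_univ_sum`, and take the coefficient of `X^i`. -/
theorem coeff_sh_monomial (x : σ → R) (i j : σ →₀ ℕ) (c : R) :
    coeff i (sh x (monomial j c)) =
      c * ∏ h, ((((j h).choose (i h) : ℕ) : R) * x h ^ (j h - i h)) := by
  classical
  have key : sh x (monomial j c) = ∑ p ∈ Fintype.piFinset (fun h => range (j h + 1)),
      monomial (Finsupp.equivFunOnFinite.symm p)
        (c * ∏ h, ((((j h).choose (p h) : ℕ) : R) * x h ^ (j h - p h))) := by
    unfold sh
    rw [aeval_monomial, Finsupp.prod_fintype _ _ (fun h => pow_zero _), algebraMap_eq]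
    simp_rw [add_pow]
    rw [Finset.prod_univ_sum, Finset.mul_sum]
    refine Finset.sum_congr rfl fun p _ => ?_
    rw [monomial_eq, Finsupp.prod_fintype _ _ (fun h => pow_zero _), map_mul, map_prod, mul_assoc,
      ← Finset.prod_mul_distrib]
    congr 1
    refine Finset.prod_congr rfl fun h _ => ?_
    rw [map_mul, map_pow, map_natCast, Finsupp.equivFunOnFinite_symm_apply_apply]
    ring
  rw [key, coeff_sum]
  simp_rw [coeff_monomial]
  by_cases hi : ∀ h, i h ≤ j h
  · rw [Finset.sum_eq_single (i : σ → ℕ)]
    · rw [if_pos (by simp)]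
    · intro p _ hp
      rw [if_neg]
      intro h1
      apply hp
      rw [← h1]
      simp
    · intro h1
      exfalso
      apply h1
      rw [Fintype.mem_piFinset]
      intro h
      rw [mem_range]
      have := hi h
      omega
  · push Not at hi
    obtain ⟨h, hh⟩ := hi
    have h0 : ∏ h, ((((j h).choose (i h) : ℕ) : R) * x h ^ (j h - i h)) = 0 := by
      refine Finset.prod_eq_zero (Finset.mem_univ h) ?_
      rw [Nat.choose_eq_zero_of_lt hh, Nat.cast_zero, zero_mul]
    rw [h0, mul_zero]
    refine Finset.sum_eq_zero fun p hp => ?_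
    rw [if_neg]
    intro h1
    rw [Fintype.mem_piFinset] at hp
    have h2 := hp h
    rw [mem_range] at h2
    have h3 : i h = p h := by rw [← h1]; simp
    omega

/-- `coeff_sh_monomial` and `P = ∑ monomial` (`MvPolynomial.support_sum_monomial_coeff`, `as_sum`) -/
theorem coeff_sh (x : σ → R) (i : σ →₀ ℕ) (P : MvPolynomial σ R) :
    coeff i (sh x P) =
      ∑ j ∈ P.support, coeff j P * ∏ h, ((((j h).choose (i h) : ℕ) : R) * x h ^ (j h - i h)) := by
  conv_lhs => rw [← support_sum_monomial_coeff P]
  rw [map_sum, coeff_sum]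
  exact Finset.sum_congr rfl fun j _ => coeff_sh_monomial x i j _

/-- Taylor's formula: `coeff_sh_monomial`, `hD_monomial`, `eval_monomial` -/
theorem coeff_sh_eq_eval (x : σ → R) (i : σ →₀ ℕ) (P : MvPolynomial σ R) :
    coeff i (sh x P) = eval x (hD i P) := by
  rw [coeff_sh]
  conv_rhs => rw [← support_sum_monomial_coeff P]
  rw [map_sum, map_sum]
  refine Finset.sum_congr rfl fun j _ => ?_
  rw [hD_monomial, eval_monomial, Finsupp.prod_fintype _ _ (fun h => pow_zero _),
    Finset.prod_mul_distrib, mul_assoc]
  rfl

/-- By `MvPolynomial.funext` it suffices to compare the values at `y`: by `coeff_sh_eq_eval` and `sh_sh`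
both are `coeff I (sh (x + y) P)` (`eval y (sh x Q) = eval (x + y) Q`). -/
theorem hD_sh [IsDomain R] [Infinite R] (I : σ →₀ ℕ) (x : σ → R) (P : MvPolynomial σ R) :
    hD I (sh x P) = sh x (hD I P) := by
  refine MvPolynomial.funext fun y => ?_
  rw [← coeff_sh_eq_eval, sh_sh, Sh_eval, coeff_sh_eq_eval]

end

end W156h39
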